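import Pool.Agent.NH16.IG.I2

set_option autoImplicit false

namespace Pool.Agent.NH16.IG

open Finset Filter

open I2P

namespace DeP

/-- the class of `n` determines the rough part -/
theorem rough_class {S : Finset ℕ} {x y n : ℕ} (hS : S ⊆ Icc 1 x) (hn : x < n) :
    Rough S y n = Rough S y (n % primorial y + primorial y * x) := by
  unfold Rough
  refine filter_congr fun u hu => ?_
  have hux := (mem_Icc.1 (hS hu)).2
  have hM := primorial_pos y
  have hle : x ≤ primorial y * x := Nat.le_mul_of_pos_left _ hM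
  have hmod : n - u ≡ n % primorial y + primorial y * x - u [MOD primorial y] := by
    refine Nat.ModEq.add_right_cancel' u ?_
    rw [Nat.sub_add_cancel (by omega), Nat.sub_add_cancel (by omega)]
    unfold Nat.ModEq
    rw [Nat.add_mul_mod_self_left, Nat.mod_mod]
  unfold Nat.Coprime
  rw [hmod.gcd_eq]

theorem rep_class {S : Finset ℕ} {x y n : ℕ} (hS : S ⊆ Icc 1 x) (hn : x + y < n) :
    Rep (Rough S y (n % primorial y + primorial y * x)) n = Rep S n := by
  rw [← rough_class hS (by omega)]
  ext u
  constructor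
  · intro h
    unfold Rep Rough at h
    unfold Rep
    rw [mem_filter, mem_filter] at h
    exact mem_filter.2 ⟨h.1.1, h.2⟩
  · intro h
    have h1 := rep_sub hS hn h
    unfold Rep at h ⊢
    rw [mem_filter] at h
    exact mem_filter.2 ⟨h1, h.2⟩

end DeP

open DeP in
theorem descr (h3 : TwoClass) : Descr := by
  intro C ε hε hε1
  obtain ⟨K₀, hK⟩ := h3 C (ε / 2) (by positivity) (by linarith)
  refine ⟨K₀, fun K₁ => ?_⟩
  obtain ⟨x₀, hx₀⟩ := hK K₁
  obtain ⟨x₁, hx₁⟩ := small_ll K₁ (ε / 2) (by positivity)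
  obtain ⟨x₂, hx₂⟩ := large_l 0
  refine ⟨max x₀ (max x₁ x₂), fun x hx y hy0 hy S hS => ?_⟩
  have g0 := hx₀ x (le_of_max_le_left hx) y hy0 hy
  have g1 := hx₁ x (le_of_max_le_left (le_of_max_le_right hx))
  have g2 := hx₂ x (le_of_max_le_right (le_of_max_le_right hx))
  classical
  set M := primorial y with hM
  have hM0 : 0 < M := primorial_pos y
  have hx0 : (0 : ℝ) ≤ x := Nat.cast_nonneg _
  set B : ℕ → Finset ℕ := fun m =>
    if (x : ℝ) ≤ (Rough S y (m + M * x)).card * Real.log x ^ C then
      (Ioc x (2 * x)).filter (fun n => n % M = m ∧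
        ε / 2 * ((Rough S y (m + M * x)).card / (V y * Real.log x)) <
          |((Rep (Rough S y (m + M * x)) n).card : ℝ) -
            (Rough S y (m + M * x)).card / (V y * Real.log x)|) else ∅ with hB
  have hBc : ∀ m ∈ range M, ((B m).card : ℝ) ≤ ε / 2 * (x / M) := by
    intro m hm
    rw [hB]
    dsimp only
    split_ifs with h
    · refine g0 m (mem_range.1 hm) _ ((filter_subset _ _).trans hS) ?_ h
      intro u hu
      exact (mem_filter.1 hu).2
    · rw [card_empty, Nat.cast_zero]
      positivity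
  have hsub : ((Ioc x (2 * x)).filter (fun n => (x : ℝ) ≤ (Rough S y n).card * Real.log x ^ C ∧
      ε * E S x y n < |((Rep S n).card : ℝ) - E S x y n|)) ⊆
      Ioc x (x + y) ∪ (range M).biUnion B := by
    intro n hn
    rw [mem_filter] at hn
    obtain ⟨hn1, hn2, hn3⟩ := hn
    have hxn := (mem_Ioc.1 hn1).1
    rw [mem_union, mem_Ioc, mem_biUnion]
    by_cases hny : n ≤ x + y
    · exact Or.inl ⟨hxn, hny⟩
    · refine Or.inr ⟨n % M, mem_range.2 (Nat.mod_lt _ hM0), ?_⟩
      have e1 := rough_class (y := y) hS hxn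
      have e2 := rep_class (y := y) hS (by omega : x + y < n)
      rw [← hM] at e1 e2
      rw [hB]
      dsimp only
      rw [if_pos (by rw [← e1]; exact hn2), mem_filter]
      refine ⟨hn1, rfl, ?_⟩
      rw [e2, ← e1]
      have hE : E S x y n = ((Rough S y n).card : ℝ) / (V y * Real.log x) := rfl
      rw [← hE]
      refine lt_of_le_of_lt ?_ hn3
      have hE0 : 0 ≤ E S x y n := by
        rw [hE]
        exact div_nonneg (Nat.cast_nonneg _) (mul_nonneg (V_pos y).le g2)
      nlinarith
  have hsum : ((((range M).biUnion B).card : ℕ) : ℝ) ≤ ε / 2 * x := by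
    calc ((((range M).biUnion B).card : ℕ) : ℝ) ≤ ((∑ m ∈ range M, (B m).card : ℕ) : ℝ) := by
          exact_mod_cast card_biUnion_le
      _ = ∑ m ∈ range M, ((B m).card : ℝ) := by push_cast; rfl
      _ ≤ ∑ _m ∈ range M, ε / 2 * (x / M) := sum_le_sum hBc
      _ = M * (ε / 2 * (x / M)) := by rw [sum_const, card_range, nsmul_eq_mul]
      _ = ε / 2 * x := by
          have : (M : ℝ) ≠ 0 := by exact_mod_cast hM0.ne'
          field_simp
  calc _ ≤ (((Ioc x (x + y) ∪ (range M).biUnion B).card : ℕ) : ℝ) := by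
        exact_mod_cast card_le_card hsub
    _ ≤ ((Ioc x (x + y)).card : ℝ) + (((range M).biUnion B).card : ℝ) := by
        exact_mod_cast card_union_le _ _
    _ ≤ ε / 2 * x + ε / 2 * x := by
        refine add_le_add ?_ hsum
        rw [card_small]
        exact hy.trans g1
    _ = ε * x := by ring

end Pool.Agent.NH16.IG
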