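import Pool.Agent.NH16.IG.Stm

set_option autoImplicit false

namespace Pool.Agent.NH16.IG

open Finset

namespace DeB

lemma rough_eq {S : Finset ℕ} {x y n n' : ℕ} (hS : S ⊆ Icc 1 x) (hn : x ≤ n) (hn' : x ≤ n')
    (h : n % primorial y = n' % primorial y) : Rough S y n = Rough S y n' := by
  unfold Rough
  apply filter_congr
  intro u hu
  have hux := (mem_Icc.1 (hS hu)).2
  have h1 : (n - u) ≡ (n' - u) [MOD primorial y] := by
    have e1 : n - u + u = n := Nat.sub_add_cancel (by omega)
    have e2 : n' - u + u = n' := Nat.sub_add_cancel (by omega)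
    apply Nat.ModEq.add_right_cancel' u
    rw [e1, e2]
    exact h
  unfold Nat.Coprime
  rw [Nat.ModEq.gcd_eq h1]

lemma rep_eq {S : Finset ℕ} {x y n : ℕ} (hS : S ⊆ Icc 1 x) (hn : x + y < n) :
    Rep S n = Rep (Rough S y n) n := by
  unfold Rep Rough
  ext u
  simp only [mem_filter]
  constructor
  · rintro ⟨hu, hp⟩
    refine ⟨⟨hu, ?_⟩, hp⟩
    have hux := (mem_Icc.1 (hS hu)).2
    rw [Nat.Prime.coprime_iff_not_dvd hp]
    intro hd
    rw [hp.dvd_primorial_iff] at hd
    omega
  · rintro ⟨⟨hu, _⟩, hp⟩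
    exact ⟨hu, hp⟩

end DeB

/-- IG-4 -/
theorem descrB (h3 : TwoClass) : Descr := by
  classical
  intro C ε hε hε1
  obtain ⟨K₀, h⟩ := h3 C (ε / 2) (by positivity) (by linarith)
  refine ⟨K₀, fun K₁ => ?_⟩
  obtain ⟨x₁, h⟩ := h K₁
  have t1 : Filter.Tendsto (fun x : ℕ => (x : ℝ)) Filter.atTop Filter.atTop := tendsto_natCast_atTop_atTop
  have hll : (fun x : ℝ => Real.log x) =o[Filter.atTop] (fun x : ℝ => x) := Real.isLittleO_log_id_atTop
  have hK : (0 : ℝ) < ε / (2 * ((K₁ : ℝ) + 1)) := by positivity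
  have hev := (t1.eventually (hll.bound hK)).and (t1.eventually
    ((Real.tendsto_log_atTop.eventually_ge_atTop 1).and (Filter.eventually_ge_atTop (1 : ℝ))))
  obtain ⟨x₂, h2⟩ := Filter.eventually_atTop.1 hev
  refine ⟨max x₁ x₂, fun x hx y hy1 hy2 S hS => ?_⟩
  have b1 : x₁ ≤ x := (le_max_left _ _).trans hx
  obtain ⟨c1, c2, c3⟩ := h2 x ((le_max_right _ _).trans hx)
  have h := h x b1 y hy1 hy2
  set M := primorial y with hM
  have hM0 : 0 < M := primorial_pos y
  have hx0 : (0 : ℝ) < x := by linarith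
  have hlogx : Real.log (Real.log x) ≤ Real.log x := by
    have := Real.log_le_sub_one_of_pos (show 0 < Real.log x by linarith)
    linarith
  have hyx : (y : ℝ) ≤ ε / 2 * x := by
    rw [Real.norm_of_nonneg (by linarith), Real.norm_of_nonneg hx0.le] at c1
    have hK0 : (0 : ℝ) ≤ K₁ := Nat.cast_nonneg _
    calc (y : ℝ) ≤ K₁ * Real.log (Real.log x) := hy2
      _ ≤ K₁ * Real.log x := mul_le_mul_of_nonneg_left hlogx hK0
      _ ≤ (K₁ + 1) * Real.log x := mul_le_mul_of_nonneg_right (by linarith) (by linarith)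
      _ ≤ (K₁ + 1) * (ε / (2 * ((K₁ : ℝ) + 1)) * x) := mul_le_mul_of_nonneg_left c1 (by positivity)
      _ = ε / 2 * x := by field_simp
  set T : ℕ → Finset ℕ := fun m => Rough S y (m + M * x) with hT
  set B : ℕ → Finset ℕ := fun m => (Ioc x (2 * x)).filter (fun n => n % M = m ∧
      ε / 2 * ((T m).card / (V y * Real.log x)) < |((Rep (T m) n).card : ℝ) - (T m).card / (V y * Real.log x)|)
    with hB
  set I : Finset ℕ := (range M).filter (fun m => (x : ℝ) ≤ (T m).card * Real.log x ^ C) with hI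
  have hBc : ∀ m ∈ I, ((B m).card : ℝ) ≤ ε / 2 * (x / M) := by
    intro m hm
    rw [hI, mem_filter, mem_range] at hm
    exact h m hm.1 (T m) ((filter_subset _ _).trans hS) (fun u hu => (mem_filter.1 hu).2) hm.2
  have hsub : (Ioc x (2 * x)).filter (fun n => (x : ℝ) ≤ (Rough S y n).card * Real.log x ^ C ∧
      ε * E S x y n < |((Rep S n).card : ℝ) - E S x y n|) ⊆ Ioc x (x + y) ∪ I.biUnion B := by
    intro n hn
    rw [mem_filter, mem_Ioc] at hn
    obtain ⟨⟨hn1, hn2⟩, hn3, hn4⟩ := hn
    rw [mem_union, mem_Ioc]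
    by_cases hc : n ≤ x + y
    · left
      exact ⟨hn1, hc⟩
    · right
      push Not at hc
      have hR : Rough S y n = T (n % M) := by
        apply DeB.rough_eq hS hn1.le
        · calc x = 1 * x := (one_mul x).symm
            _ ≤ M * x := Nat.mul_le_mul_right x hM0
            _ ≤ n % M + M * x := Nat.le_add_left _ _
        · rw [← hM, Nat.add_mul_mod_self_left, Nat.mod_mod]
      rw [mem_biUnion]
      refine ⟨n % M, ?_, ?_⟩
      · rw [hI, mem_filter, mem_range]
        refine ⟨Nat.mod_lt _ hM0, ?_⟩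
        rw [← hR]
        exact hn3
      · rw [hB, mem_filter, mem_Ioc]
        refine ⟨⟨hn1, hn2⟩, rfl, ?_⟩
        rw [DeB.rep_eq (y := y) hS hc] at hn4
        unfold E at hn4
        rw [hR] at hn4
        refine lt_of_le_of_lt ?_ hn4
        have hE : 0 ≤ ((T (n % M)).card : ℝ) / (V y * Real.log x) := by
          have hV : 0 ≤ V y := by
            unfold V
            apply prod_nonneg
            intro q hq
            have hq1 : (1 : ℝ) ≤ q := by exact_mod_cast (mem_filter.1 hq).2.one_lt.le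
            have : 1 / (q : ℝ) ≤ 1 := by
              rw [div_le_one (by linarith)]
              exact hq1
            linarith
          have : 0 ≤ Real.log x := by linarith
          positivity
        nlinarith
  have h3 : (((Ioc x (2 * x)).filter (fun n => (x : ℝ) ≤ (Rough S y n).card * Real.log x ^ C ∧
      ε * E S x y n < |((Rep S n).card : ℝ) - E S x y n|)).card : ℝ) ≤ ((Ioc x (x + y)).card : ℝ) +
        ((I.biUnion B).card : ℝ) := by
    exact_mod_cast (card_le_card hsub).trans (card_union_le _ _)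
  have h4 : ((I.biUnion B).card : ℝ) ≤ ε / 2 * x := by
    calc ((I.biUnion B).card : ℝ) ≤ ∑ m ∈ I, ((B m).card : ℝ) := by exact_mod_cast card_biUnion_le
      _ ≤ ∑ m ∈ I, ε / 2 * (x / M) := sum_le_sum hBc
      _ = I.card * (ε / 2 * (x / M)) := by rw [sum_const, nsmul_eq_mul]
      _ ≤ M * (ε / 2 * (x / M)) := by
          apply mul_le_mul_of_nonneg_right _ (by positivity)
          have : I.card ≤ M := (card_filter_le _ _).trans (by rw [card_range])
          exact_mod_cast this
      _ = ε / 2 * x := by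
          have : (M : ℝ) ≠ 0 := by exact_mod_cast hM0.ne'
          field_simp
  rw [Nat.card_Ioc] at h3
  have h5 : ((x + y - x : ℕ) : ℝ) = y := by
    congr 1
    omega
  rw [h5] at h3
  linarith

end Pool.Agent.NH16.IG
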