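import Pool.Agent.NH16.IG.Stm

/-!
# Project IG: equivalence of `HL` and `ED` (helper63)
-/

set_option autoImplicit false

namespace Pool.Agent.NH16.IG

open Finset

namespace I1

theorem q_bounds {q : ℕ} (hq : q.Prime) : 0 < 1 - 1 / (q : ℝ) ∧ 1 - 1 / (q : ℝ) ≤ 1 := by
  have h2 : (2 : ℝ) ≤ q := by exact_mod_cast hq.two_le
  have h3 : 1 / (q : ℝ) ≤ 1 / 2 := one_div_le_one_div_of_le (by norm_num) h2
  have h4 : 0 ≤ 1 / (q : ℝ) := by positivity
  constructor <;> linarith

theorem v_pos (y : ℕ) : 0 < V y :=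
  Finset.prod_pos fun _ hq => (q_bounds (Finset.mem_filter.1 hq).2).1

theorem v_le (y : ℕ) : V y ≤ 1 :=
  Finset.prod_le_one (fun _ hq => (q_bounds (Finset.mem_filter.1 hq).2).1.le)
    fun _ hq => (q_bounds (Finset.mem_filter.1 hq).2).2

theorem lc_succ (y n : ℕ) : Lc (y + 1) n = Lc y n * (if (y + 1).Prime then
    (if (y + 1) ∣ n then (1 : ℝ) else 1 - 1 / (((y + 1 : ℕ) : ℝ) - 1)) else 1) := by
  unfold Lc
  rw [Finset.prod_filter, Finset.prod_filter, Finset.prod_Icc_succ_top (by omega)]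

theorem lc_low {n : ℕ} (hn : Even n) : ∀ y : ℕ, 1 / ((y : ℝ) + 1) ≤ Lc (y + 2) n := by
  intro y
  induction y with
  | zero =>
    have h0 : Lc 0 n = 1 := by
      unfold Lc
      simp
    have h1 : Lc 1 n = 1 := by
      rw [lc_succ, h0, if_neg (by decide), one_mul]
    have h2 : Lc 2 n = 1 := by
      rw [show (2 : ℕ) = 1 + 1 from rfl, lc_succ, h1, if_pos (by decide),
        if_pos (show 1 + 1 ∣ n from hn.two_dvd), one_mul]
    rw [h2]
    norm_num
  | succ y ih =>
    rw [show y + 1 + 2 = (y + 2) + 1 by ring, lc_succ]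
    have hL : 0 < Lc (y + 2) n := lt_of_lt_of_le (by positivity) ih
    have hy : (0 : ℝ) < (y : ℝ) + 1 := by positivity
    have hfac : 1 - 1 / ((y : ℝ) + 2) ≤ (if (y + 2 + 1).Prime then
        (if (y + 2 + 1) ∣ n then (1 : ℝ) else 1 - 1 / (((y + 2 + 1 : ℕ) : ℝ) - 1)) else 1) := by
      have h1 : 1 - 1 / ((y : ℝ) + 2) ≤ 1 := by
        have : 0 ≤ 1 / ((y : ℝ) + 2) := by positivity
        linarith
      split_ifs
      · exact h1
      · apply le_of_eq
        push_cast
        ring
      · exact h1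
    have h2 : 1 / (((y + 1 : ℕ) : ℝ) + 1) = 1 / ((y : ℝ) + 1) * (1 - 1 / ((y : ℝ) + 2)) := by
      push_cast
      field_simp
      ring
    rw [h2]
    have h3 : 0 ≤ 1 - 1 / ((y : ℝ) + 2) := by
      have : 1 / ((y : ℝ) + 2) ≤ 1 := by
        rw [div_le_one (by positivity)]
        linarith
      linarith
    exact mul_le_mul ih hfac h3 hL.le

theorem lc_y {n : ℕ} (hn : Even n) {y : ℕ} (hy : 2 ≤ y) : 1 / (y : ℝ) ≤ Lc y n := by
  obtain ⟨z, rfl⟩ := Nat.exists_eq_add_of_le hy
  have h1 := lc_low hn z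
  rw [show z + 2 = 2 + z by ring] at h1
  refine le_trans ?_ h1
  refine one_div_le_one_div_of_le (by positivity) ?_
  push_cast
  linarith

theorem alg1 {r e b a δ : ℝ} (hδ : 0 < δ) (hδ1 : δ ≤ 1 / 20) (ha : 0 ≤ a)
    (h1 : |r - e| ≤ δ * e) (h2 : |e - b| ≤ δ * b) (h3 : |a - b| ≤ δ * a) :
    |r - a| ≤ 20 * δ * a := by
  rw [abs_le] at *
  have hda : δ * a ≤ 1 / 20 * a := mul_le_mul_of_nonneg_right hδ1 ha
  have hb0 : 0 ≤ b := by linarith
  have hba : b ≤ 2 * a := by linarith
  have hdb : δ * b ≤ 1 / 20 * b := mul_le_mul_of_nonneg_right hδ1 hb0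
  have hea : e ≤ 4 * a := by linarith
  have e1 : δ * b ≤ 2 * (δ * a) := by nlinarith
  have e2 : δ * e ≤ 4 * (δ * a) := by nlinarith
  have e3 : 0 ≤ δ * a := mul_nonneg hδ.le ha
  constructor <;> nlinarith

theorem alg2 {r e b a δ : ℝ} (hδ : 0 < δ) (hδ1 : δ ≤ 1 / 20) (ha : 0 ≤ a) (he : 0 ≤ e)
    (h1 : |r - a| ≤ δ * a) (h2 : |a - b| ≤ δ * a) (h3 : |r - e| ≤ δ * e) :
    |e - b| ≤ 20 * δ * b := by
  rw [abs_le] at *
  have hda : δ * a ≤ 1 / 20 * a := mul_le_mul_of_nonneg_right hδ1 ha
  have hde : δ * e ≤ 1 / 20 * e := mul_le_mul_of_nonneg_right hδ1 he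
  have hab : a ≤ 2 * b := by linarith
  have hea : e ≤ 4 * b := by linarith
  have hb0 : 0 ≤ b := by linarith
  have e1 : δ * a ≤ 2 * (δ * b) := by nlinarith
  have e2 : δ * e ≤ 4 * (δ * b) := by nlinarith
  have e3 : 0 ≤ δ * b := mul_nonneg hδ.le hb0
  constructor <;> nlinarith

/-- `log x ≤ c x` eventually -/
theorem log_small {c : ℝ} (hc : 0 < c) : ∀ᶠ t : ℝ in Filter.atTop, Real.log t ≤ c * t := by
  have h := Real.isLittleO_log_id_atTop.def hc
  filter_upwards [h, Filter.eventually_ge_atTop (0 : ℝ)] with t ht ht0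
  have h1 : ‖Real.log t‖ ≤ c * ‖t‖ := ht
  rw [Real.norm_of_nonneg ht0] at h1
  exact (le_abs_self _).trans h1

theorem big (K₁ Y : ℕ) {δ : ℝ} (hδ : 0 < δ) : ∃ x₁ : ℕ, ∀ x : ℕ, x₁ ≤ x →
    (1 : ℝ) ≤ x ∧ 2 ≤ Real.log x ∧ K₁ * Real.log (Real.log x) ≤ Real.log x ∧
      (Y : ℝ) ≤ Real.log (Real.log x) ∧ Real.log x ≤ x ∧ Real.log x ≤ δ * x := by
  have t1 : Filter.Tendsto (fun x : ℕ => (x : ℝ)) Filter.atTop Filter.atTop :=
    tendsto_natCast_atTop_atTop
  have t2 := Real.tendsto_log_atTop.comp t1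
  have t3 := Real.tendsto_log_atTop.comp t2
  have hK : (0 : ℝ) < 1 / ((K₁ : ℝ) + 1) := by positivity
  have h := (t1.eventually_ge_atTop 1).and ((t2.eventually_ge_atTop 2).and
    ((t2.eventually (log_small hK)).and ((t3.eventually_ge_atTop (Y : ℝ)).and
      ((t1.eventually (log_small one_pos)).and (t1.eventually (log_small hδ))))))
  obtain ⟨x₁, hx₁⟩ := Filter.eventually_atTop.1 h
  refine ⟨x₁, fun x hx => ?_⟩
  obtain ⟨a1, a2, a3, a4, a5, a6⟩ := hx₁ x hx
  simp only [Function.comp_apply] at a2 a3 a4 a5 a6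
  refine ⟨a1, a2, ?_, a4, by linarith, a6⟩
  have hK0 : (0 : ℝ) ≤ K₁ := Nat.cast_nonneg _
  have h1 : (K₁ : ℝ) * Real.log (Real.log x) ≤ K₁ * (1 / ((K₁ : ℝ) + 1) * Real.log x) :=
    mul_le_mul_of_nonneg_left a3 hK0
  refine h1.trans ?_
  have h2 : (K₁ : ℝ) * (1 / ((K₁ : ℝ) + 1)) ≤ 1 := by
    rw [mul_one_div, div_le_one (by positivity)]
    linarith
  nlinarith

theorem rep_sub {S : Finset ℕ} {x y n : ℕ} (hS : S ⊆ Icc 1 x) (hn : x + y < n) :
    Rep S n ⊆ Rough S y n := by
  intro u hu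
  obtain ⟨hu1, hp⟩ := Finset.mem_filter.1 hu
  refine Finset.mem_filter.2 ⟨hu1, ?_⟩
  rw [Nat.Prime.coprime_iff_not_dvd hp]
  intro hdvd
  unfold primorial at hdvd
  rw [Prime.dvd_finsetProd_iff hp.prime] at hdvd
  obtain ⟨q, hq, hpq⟩ := hdvd
  obtain ⟨hq1, hq2⟩ := Finset.mem_filter.1 hq
  have h1 : n - u = q := (Nat.prime_dvd_prime_iff_eq hp hq2).1 hpq
  have h2 := (Finset.mem_Icc.1 (hS hu1)).2
  have h3 := Finset.mem_range.1 hq1
  omega

theorem min_facts {ε : ℝ} (hε : 0 < ε) : 0 < min ε 1 / 20 ∧ min ε 1 / 20 ≤ 1 / 20 ∧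
    20 * (min ε 1 / 20) ≤ ε := by
  have h1 := min_le_left ε 1
  have h2 := min_le_right ε 1
  have h3 : 0 < min ε 1 := lt_min hε one_pos
  refine ⟨by positivity, by linarith, by linarith⟩

/-- lower bounds for the size of the set, in the form needed -/
theorem size_ok {x y B C : ℕ} {s t : ℝ} (hy : (y : ℝ) ≤ Real.log x) (hL : 2 ≤ Real.log x)
    (hs : (x : ℝ) ≤ s * Real.log x ^ B) (hs0 : 0 ≤ s) (ht : s ≤ 2 * y * Real.log x * t)
    (hC : B + 4 = C) : (x : ℝ) ≤ t * Real.log x ^ C := by
  have hL0 : 0 < Real.log x := by linarith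
  have hy0 : (0 : ℝ) ≤ y := Nat.cast_nonneg _
  rcases hs0.eq_or_lt with h0 | h0
  · rw [← h0, zero_mul] at hs
    have hx0 : (0 : ℝ) ≤ x := Nat.cast_nonneg _
    have hx1 : (x : ℝ) = 0 := le_antisymm hs hx0
    rw [hx1, Real.log_zero] at hL
    linarith
  · have hyt : 0 < 2 * y * Real.log x * t := h0.trans_le ht
    have ht0 : 0 < t := by
      by_contra hcon
      push Not at hcon
      have : 2 * y * Real.log x * t ≤ 0 := mul_nonpos_of_nonneg_of_nonpos (by positivity) hcon
      linarith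
    have h1 : s * Real.log x ^ B ≤ 2 * y * Real.log x * t * Real.log x ^ B :=
      mul_le_mul_of_nonneg_right ht (by positivity)
    have h2 : 2 * (y : ℝ) * Real.log x * t * Real.log x ^ B ≤
        Real.log x * Real.log x * Real.log x * t * Real.log x ^ B := by
      have : 2 * (y : ℝ) * Real.log x ≤ Real.log x * Real.log x * Real.log x := by
        nlinarith [mul_le_mul hL hy hy0 hL0.le]
      gcongr
    have h3 : Real.log x * Real.log x * Real.log x * t * Real.log x ^ B = t * Real.log x ^ (B + 3) := by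
      ring
    have h4 : t * Real.log x ^ (B + 3) ≤ t * Real.log x ^ C := by
      rw [← hC]
      have : Real.log x ^ (B + 3) ≤ Real.log x ^ (B + 4) :=
        pow_le_pow_right₀ (by linarith) (by omega)
      gcongr
    linarith

end I1

open I1

theorem iff1 (h4 : Descr) (h5 : SgTail) : Iff1 := by
  intro S hS hB
  obtain ⟨B, xB, hB⟩ := hB
  constructor
  · intro hHL ε hε
    obtain ⟨hδ0, hδ1, hδε⟩ := min_facts hε
    set δ := min ε 1 / 20 with hδ
    obtain ⟨KD, hKD⟩ := h4 (B + 4) δ hδ0 (by linarith)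
    refine ⟨max KD 1, fun K₁ => ?_⟩
    obtain ⟨xD, hxD⟩ := hKD K₁
    obtain ⟨xH, hxH⟩ := hHL δ hδ0
    obtain ⟨Y₀, hY⟩ := h5 δ hδ0
    obtain ⟨x₁, hx₁⟩ := big K₁ (max Y₀ 2) hδ0
    refine ⟨max (max xD xH) (max xB x₁), fun x hx y hy1 hy2 => ?_⟩
    obtain ⟨b1, b2, b3, b4, b5, b6⟩ := hx₁ x (by omega)
    have hLL : 0 ≤ Real.log (Real.log x) := Real.log_nonneg (by linarith)
    have hL0 : 0 < Real.log x := by linarith
    have hy1' : Real.log (Real.log x) ≤ y := by
      refine le_trans ?_ hy1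
      have : (1 : ℝ) ≤ ((max KD 1 : ℕ) : ℝ) := by exact_mod_cast le_max_right _ _
      nlinarith
    have hyD : KD * Real.log (Real.log x) ≤ y := by
      refine le_trans ?_ hy1
      have : (KD : ℝ) ≤ ((max KD 1 : ℕ) : ℝ) := by exact_mod_cast le_max_left _ _
      exact mul_le_mul_of_nonneg_right this hLL
    have hyL : (y : ℝ) ≤ Real.log x := hy2.trans b3
    have hyY : max Y₀ 2 ≤ y := by exact_mod_cast b4.trans hy1'
    have hyx : y ≤ x := by exact_mod_cast hyL.trans b5
    have hx1 : 1 ≤ x := by exact_mod_cast b1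
    have c1 := hxD x (by omega) y hyD hy2 (S x) (hS x)
    have c2 := hxH x (by omega)
    have c3 := hY x hx1 y (by omega) hyx
    have c4 : (((Ioc x (x + y))).card : ℝ) ≤ δ * x := by
      rw [Nat.card_Ioc]
      have : x + y - x = y := by omega
      rw [this]
      linarith
    refine le_trans ?_ (show δ * x + δ * x + δ * x + δ * x ≤ ε * x by nlinarith)
    refine le_trans ?_ (add_le_add (add_le_add (add_le_add c1 c2) c3) c4)
    rw [← Nat.cast_add, ← Nat.cast_add, ← Nat.cast_add]
    refine Nat.cast_le.2 ?_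
    refine le_trans (Finset.card_le_card ?_) ((Finset.card_union_le _ _).trans (Nat.add_le_add_right
      ((Finset.card_union_le _ _).trans (Nat.add_le_add_right (Finset.card_union_le _ _) _)) _))
    intro n hn
    obtain ⟨hn1, hne, hnb⟩ := Finset.mem_filter.1 hn
    by_contra hcon
    rw [Finset.mem_union, Finset.mem_union, Finset.mem_union, not_or, not_or, not_or] at hcon
    obtain ⟨⟨⟨d1, d2⟩, d3⟩, d4⟩ := hcon
    have f2 : |((Rep (S x) n).card : ℝ) - Sg n n * (S x).card / Real.log x| ≤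
        δ * (Sg n n * (S x).card / Real.log x) := by
      by_contra h
      push Not at h
      exact d2 (Finset.mem_filter.2 ⟨hn1, hne, h⟩)
    have f3 : |Sg n n - Sg y n| ≤ δ * Sg n n := by
      by_contra h
      push Not at h
      exact d3 (Finset.mem_filter.2 ⟨hn1, h⟩)
    have f4 : x + y < n := by
      by_contra h
      push Not at h
      exact d4 (Finset.mem_Ioc.2 ⟨(Finset.mem_Ioc.1 hn1).1, h⟩)
    set s : ℝ := ((S x).card : ℝ) with hs
    set r : ℝ := ((Rep (S x) n).card : ℝ) with hr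
    set t : ℝ := ((Rough (S x) y n).card : ℝ) with ht
    have hs0 : 0 ≤ s := Nat.cast_nonneg _
    have hrt : r ≤ t := by
      rw [hr, ht]
      exact Nat.cast_le.2 (Finset.card_le_card (rep_sub (hS x) f4))
    have hV := v_pos y
    have hV1 := v_le y
    have hLc := lc_y hne (show 2 ≤ y by omega)
    have hy0 : (0 : ℝ) < y := by
      have : 0 < y := by omega
      exact_mod_cast this
    have hLc0 : 0 < Lc y n := lt_of_lt_of_le (by positivity) hLc
    have hn2 : 2 ≤ n := by omega
    have hSn : 0 < Sg n n := by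
      have := lc_y hne hn2
      have hn0 : (0 : ℝ) < n := by
        have : 0 < n := by omega
        exact_mod_cast this
      exact div_pos (lt_of_lt_of_le (by positivity) this) (v_pos n)
    set a : ℝ := Sg n n * s / Real.log x with ha
    set b : ℝ := Sg y n * s / Real.log x with hb
    have ha0 : 0 ≤ a := by positivity
    have hab : |a - b| ≤ δ * a := by
      have e1 : a - b = (Sg n n - Sg y n) * (s / Real.log x) := by rw [ha, hb]; ring
      have e2 : δ * a = δ * Sg n n * (s / Real.log x) := by rw [ha]; ring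
      rw [e1, e2, abs_mul, abs_of_nonneg (show 0 ≤ s / Real.log x by positivity)]
      exact mul_le_mul_of_nonneg_right f3 (by positivity)
    -- the size of `Rough`
    have hbs : s ≤ y * Real.log x * b := by
      have e1 : y * Real.log x * b = y * (Lc y n / V y) * s := by
        rw [hb, Sg]
        field_simp
      rw [e1]
      have e2 : 1 ≤ y * (Lc y n / V y) := by
        rw [← mul_div_assoc, le_div_iff₀ hV, one_mul]
        have : 1 ≤ y * Lc y n := by
          rw [div_le_iff₀ hy0] at hLc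
          linarith
        linarith
      nlinarith
    have hbr : b ≤ 2 * r := by
      rw [abs_le] at f2 hab
      have : δ * a ≤ 1 / 20 * a := mul_le_mul_of_nonneg_right hδ1 ha0
      linarith
    have hst : s ≤ 2 * y * Real.log x * t := by
      have e1 : (y : ℝ) * Real.log x * b ≤ y * Real.log x * (2 * t) :=
        mul_le_mul_of_nonneg_left (by linarith) (by positivity)
      linarith
    have hok : (x : ℝ) ≤ t * Real.log x ^ (B + 4) :=
      size_ok hyL b2 (hB x (by omega)) hs0 hst rfl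
    have f1 : |r - E (S x) x y n| ≤ δ * E (S x) x y n := by
      by_contra h
      push Not at h
      exact d1 (Finset.mem_filter.2 ⟨hn1, hok, h⟩)
    have hE : E (S x) x y n = t / (V y * Real.log x) := rfl
    have hE0 : 0 ≤ E (S x) x y n := by
      rw [hE]
      positivity
    have hfin := alg2 hδ0 hδ1 ha0 hE0 f2 hab f1
    -- multiply by `V y * log x`
    have hVL : 0 < V y * Real.log x := mul_pos hV hL0
    have g1 : E (S x) x y n * (V y * Real.log x) = t := by
      rw [hE, div_mul_cancel₀ _ hVL.ne']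
    have g2 : b * (V y * Real.log x) = Lc y n * s := by
      rw [hb, Sg]
      field_simp
    have g3 : |t - Lc y n * s| ≤ 20 * δ * (Lc y n * s) := by
      have e1 := mul_le_mul_of_nonneg_right hfin hVL.le
      have e2 : |E (S x) x y n - b| * (V y * Real.log x) = |t - Lc y n * s| := by
        rw [← g1, ← g2, ← sub_mul, abs_mul, abs_of_pos hVL]
      have e3 : 20 * δ * b * (V y * Real.log x) = 20 * δ * (Lc y n * s) := by
        rw [← g2]
        ring
      rw [e2, e3] at e1
      exact e1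
    have g4 : 20 * δ * (Lc y n * s) ≤ ε * (Lc y n * s) :=
      mul_le_mul_of_nonneg_right hδε (by positivity)
    exact absurd hnb (not_lt.2 (g3.trans g4))
  · intro hED ε hε
    obtain ⟨hδ0, hδ1, hδε⟩ := min_facts hε
    set δ := min ε 1 / 20 with hδ
    obtain ⟨KD, hKD⟩ := h4 (B + 4) δ hδ0 (by linarith)
    obtain ⟨KE, hKE⟩ := hED δ hδ0
    set K₀ : ℕ := max (max KD KE) 1 with hK₀
    obtain ⟨xD, hxD⟩ := hKD (K₀ + 1)
    obtain ⟨xE, hxE⟩ := hKE (K₀ + 1)
    obtain ⟨Y₀, hY⟩ := h5 δ hδ0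
    obtain ⟨x₁, hx₁⟩ := big (K₀ + 1) (max Y₀ 2) hδ0
    refine ⟨max (max xD xE) (max xB x₁), fun x hx => ?_⟩
    obtain ⟨b1, b2, b3, b4, b5, b6⟩ := hx₁ x (by omega)
    have hLL2 : 2 ≤ Real.log (Real.log x) := by
      refine le_trans ?_ b4
      exact_mod_cast le_max_right Y₀ 2
    have hLL : 0 ≤ Real.log (Real.log x) := by linarith
    have hL0 : 0 < Real.log x := by linarith
    set y : ℕ := ⌈(K₀ : ℝ) * Real.log (Real.log x)⌉₊ with hy
    have hy0' : (K₀ : ℝ) * Real.log (Real.log x) ≤ y := Nat.le_ceil _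
    have hK1 : (1 : ℝ) ≤ K₀ := by exact_mod_cast le_max_right _ _
    have hKDle : (KD : ℝ) ≤ K₀ := by
      exact_mod_cast (le_max_left KD KE).trans (le_max_left _ _)
    have hKEle : (KE : ℝ) ≤ K₀ := by
      exact_mod_cast (le_max_right KD KE).trans (le_max_left _ _)
    have hy2 : (y : ℝ) ≤ ((K₀ + 1 : ℕ) : ℝ) * Real.log (Real.log x) := by
      have h1 : (y : ℝ) < K₀ * Real.log (Real.log x) + 1 := Nat.ceil_lt_add_one (by positivity)
      push_cast
      nlinarith
    have hy1' : Real.log (Real.log x) ≤ y := by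
      refine le_trans ?_ hy0'
      nlinarith
    have hyD : KD * Real.log (Real.log x) ≤ y :=
      (mul_le_mul_of_nonneg_right hKDle hLL).trans hy0'
    have hyE : KE * Real.log (Real.log x) ≤ y :=
      (mul_le_mul_of_nonneg_right hKEle hLL).trans hy0'
    have hyL : (y : ℝ) ≤ Real.log x := hy2.trans b3
    have hyY : max Y₀ 2 ≤ y := by exact_mod_cast b4.trans hy1'
    have hyx : y ≤ x := by exact_mod_cast hyL.trans b5
    have hx1 : 1 ≤ x := by exact_mod_cast b1
    have c1 := hxD x (by omega) y hyD hy2 (S x) (hS x)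
    have c2 := hxE x (by omega) y hyE hy2
    have c3 := hY x hx1 y (by omega) hyx
    refine le_trans ?_ (show δ * x + δ * x + δ * x ≤ ε * x by nlinarith)
    refine le_trans ?_ (add_le_add (add_le_add c1 c2) c3)
    rw [← Nat.cast_add, ← Nat.cast_add]
    refine Nat.cast_le.2 ?_
    refine le_trans (Finset.card_le_card ?_) ((Finset.card_union_le _ _).trans
      (Nat.add_le_add_right (Finset.card_union_le _ _) _))
    intro n hn
    obtain ⟨hn1, hne, hnb⟩ := Finset.mem_filter.1 hn
    by_contra hcon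
    rw [Finset.mem_union, Finset.mem_union, not_or, not_or] at hcon
    obtain ⟨⟨d1, d2⟩, d3⟩ := hcon
    have f2 : |((Rough (S x) y n).card : ℝ) - Lc y n * (S x).card| ≤
        δ * (Lc y n * (S x).card) := by
      by_contra h
      push Not at h
      exact d2 (Finset.mem_filter.2 ⟨hn1, hne, h⟩)
    have f3 : |Sg n n - Sg y n| ≤ δ * Sg n n := by
      by_contra h
      push Not at h
      exact d3 (Finset.mem_filter.2 ⟨hn1, h⟩)
    set s : ℝ := ((S x).card : ℝ) with hs
    set r : ℝ := ((Rep (S x) n).card : ℝ) with hr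
    set t : ℝ := ((Rough (S x) y n).card : ℝ) with ht
    have hs0 : 0 ≤ s := Nat.cast_nonneg _
    have hV := v_pos y
    have hV1 := v_le y
    have hLc := lc_y hne (show 2 ≤ y by omega)
    have hy0 : (0 : ℝ) < y := by
      have : 0 < y := by omega
      exact_mod_cast this
    have hLc0 : 0 < Lc y n := lt_of_lt_of_le (by positivity) hLc
    have hnx := (Finset.mem_Ioc.1 hn1).1
    have hn2 : 2 ≤ n := by omega
    have hSn : 0 < Sg n n := by
      have := lc_y hne hn2
      have hn0 : (0 : ℝ) < n := by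
        have : 0 < n := by omega
        exact_mod_cast this
      exact div_pos (lt_of_lt_of_le (by positivity) this) (v_pos n)
    set a : ℝ := Sg n n * s / Real.log x with ha
    set b : ℝ := Sg y n * s / Real.log x with hb
    have ha0 : 0 ≤ a := by positivity
    have hab : |a - b| ≤ δ * a := by
      have e1 : a - b = (Sg n n - Sg y n) * (s / Real.log x) := by rw [ha, hb]; ring
      have e2 : δ * a = δ * Sg n n * (s / Real.log x) := by rw [ha]; ring
      rw [e1, e2, abs_mul, abs_of_nonneg (show 0 ≤ s / Real.log x by positivity)]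
      exact mul_le_mul_of_nonneg_right f3 (by positivity)
    have hst : s ≤ 2 * y * Real.log x * t := by
      have e0 : 0 ≤ Lc y n * s := by positivity
      have e1 : Lc y n * s ≤ 2 * t := by
        rw [abs_le] at f2
        have : δ * (Lc y n * s) ≤ 1 / 20 * (Lc y n * s) := mul_le_mul_of_nonneg_right hδ1 e0
        linarith
      have e2 : s ≤ y * (Lc y n * s) := by
        have : 1 ≤ y * Lc y n := by
          rw [div_le_iff₀ hy0] at hLc
          linarith
        nlinarith
      have e3 : (y : ℝ) * (Lc y n * s) ≤ y * (2 * t) := mul_le_mul_of_nonneg_left e1 hy0.le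
      have ht0 : 0 ≤ t := Nat.cast_nonneg _
      have e4 : (y : ℝ) * (2 * t) ≤ 2 * y * Real.log x * t := by
        have : 0 ≤ (y : ℝ) * t := by positivity
        nlinarith
      linarith
    have hok : (x : ℝ) ≤ t * Real.log x ^ (B + 4) :=
      size_ok hyL b2 (hB x (by omega)) hs0 hst rfl
    have f1 : |r - E (S x) x y n| ≤ δ * E (S x) x y n := by
      by_contra h
      push Not at h
      exact d1 (Finset.mem_filter.2 ⟨hn1, hok, h⟩)
    have hE : E (S x) x y n = t / (V y * Real.log x) := rfl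
    have hVL : 0 < V y * Real.log x := mul_pos hV hL0
    have g1 : E (S x) x y n * (V y * Real.log x) = t := by
      rw [hE, div_mul_cancel₀ _ hVL.ne']
    have g2 : b * (V y * Real.log x) = Lc y n * s := by
      rw [hb, Sg]
      field_simp
    have heb : |E (S x) x y n - b| ≤ δ * b := by
      have e2 : |E (S x) x y n - b| * (V y * Real.log x) = |t - Lc y n * s| := by
        rw [← g1, ← g2, ← sub_mul, abs_mul, abs_of_pos hVL]
      have e3 : δ * b * (V y * Real.log x) = δ * (Lc y n * s) := by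
        rw [← g2]
        ring
      refine le_of_mul_le_mul_right ?_ hVL
      rw [e2, e3]
      exact f2
    have hfin := alg1 hδ0 hδ1 ha0 f1 heb hab
    have g4 : 20 * δ * a ≤ ε * a := mul_le_mul_of_nonneg_right hδε ha0
    exact absurd hnb (not_lt.2 (hfin.trans g4))

end Pool.Agent.NH16.IG
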