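import Pool.Agent.NH16.IG.Stm

set_option autoImplicit false

namespace Pool.Agent.NH16.IG

open Finset Filter

namespace I2P

theorem large_ll (c : ℝ) : ∃ x₁ : ℕ, ∀ x : ℕ, x₁ ≤ x → c ≤ Real.log (Real.log x) := by
  have h : Tendsto (fun x : ℕ => Real.log (Real.log (x : ℝ))) atTop atTop :=
    Real.tendsto_log_atTop.comp (Real.tendsto_log_atTop.comp tendsto_natCast_atTop_atTop)
  exact eventually_atTop.1 (h.eventually_ge_atTop c)

theorem large_l (c : ℝ) : ∃ x₁ : ℕ, ∀ x : ℕ, x₁ ≤ x → c ≤ Real.log x := by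
  have h : Tendsto (fun x : ℕ => Real.log (x : ℝ)) atTop atTop :=
    Real.tendsto_log_atTop.comp tendsto_natCast_atTop_atTop
  exact eventually_atTop.1 (h.eventually_ge_atTop c)

theorem small_ll (K : ℕ) (ε : ℝ) (hε : 0 < ε) :
    ∃ x₁ : ℕ, ∀ x : ℕ, x₁ ≤ x → (K : ℝ) * Real.log (Real.log x) ≤ ε * x := by
  have hK : (0 : ℝ) < (K : ℝ) + 1 := by positivity
  have h1 : ∀ᶠ x : ℝ in atTop, ‖Real.log x‖ ≤ ε / (K + 1) * ‖x‖ :=
    Real.isLittleO_log_id_atTop.bound (div_pos hε hK)
  have h2 : ∀ᶠ x : ℕ in atTop, ‖Real.log (x : ℝ)‖ ≤ ε / (K + 1) * ‖(x : ℝ)‖ :=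
    tendsto_natCast_atTop_atTop.eventually h1
  obtain ⟨x₁, hx₁⟩ := eventually_atTop.1 h2
  obtain ⟨x₂, hx₂⟩ := large_l 1
  refine ⟨max x₁ x₂, fun x hx => ?_⟩
  have h3 := hx₁ x (le_of_max_le_left hx)
  have h4 := hx₂ x (le_of_max_le_right hx)
  have hx0 : (0 : ℝ) ≤ x := Nat.cast_nonneg _
  rw [Real.norm_of_nonneg (by linarith), Real.norm_of_nonneg hx0] at h3
  have h5 : Real.log (Real.log x) ≤ Real.log x := by
    have := Real.log_le_sub_one_of_pos (show 0 < Real.log x by linarith)
    linarith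
  calc (K : ℝ) * Real.log (Real.log x) ≤ K * Real.log x :=
        mul_le_mul_of_nonneg_left h5 (Nat.cast_nonneg _)
    _ ≤ (K + 1) * Real.log x := by nlinarith
    _ ≤ (K + 1) * (ε / (K + 1) * x) := mul_le_mul_of_nonneg_left h3 hK.le
    _ = ε * x := by field_simp

theorem V_pos (y : ℕ) : 0 < V y := by
  unfold V
  refine prod_pos fun q hq => ?_
  have h2 : (2 : ℝ) ≤ q := by exact_mod_cast (mem_filter.1 hq).2.two_le
  have : 1 / (q : ℝ) ≤ 1 / 2 := one_div_le_one_div_of_le (by norm_num) h2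
  linarith

theorem V_le_one (y : ℕ) : V y ≤ 1 := by
  unfold V
  refine prod_le_one (fun q hq => ?_) (fun q hq => ?_)
  · have h2 : (2 : ℝ) ≤ q := by exact_mod_cast (mem_filter.1 hq).2.two_le
    have : 1 / (q : ℝ) ≤ 1 / 2 := one_div_le_one_div_of_le (by norm_num) h2
    linarith
  · have : 0 ≤ 1 / (q : ℝ) := by positivity
    linarith

/-- a prime larger than `y` is coprime to the primorial of `y` -/
theorem coprime_primorial {p y : ℕ} (hp : p.Prime) (h : y < p) : Nat.Coprime p (primorial y) := by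
  rw [Nat.Prime.coprime_iff_not_dvd hp]
  intro hd
  unfold primorial at hd
  obtain ⟨q, hq, hpq⟩ := (Prime.dvd_finsetProd_iff hp.prime _).1 hd
  rw [mem_filter, mem_range] at hq
  have := (Nat.prime_dvd_prime_iff_eq hp hq.2).1 hpq
  omega

theorem rep_sub {S : Finset ℕ} {x y n : ℕ} (hS : S ⊆ Icc 1 x) (hn : x + y < n) :
    Rep S n ⊆ Rough S y n := by
  intro u hu
  unfold Rep at hu
  unfold Rough
  rw [mem_filter] at hu ⊢
  have h1 := (mem_Icc.1 (hS hu.1)).2
  exact ⟨hu.1, coprime_primorial hu.2 (by omega)⟩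

theorem card_small (x y : ℕ) : (Ioc x (x + y)).card = y := by
  rw [Nat.card_Ioc]
  omega

end I2P

open I2P in
theorem iff2 (h4 : Descr) : Iff2 := by
  intro S hS
  constructor
  · rintro ⟨C, hC⟩
    refine ⟨C, fun ε hε => ⟨0, fun K₁ => ?_⟩⟩
    obtain ⟨x₀, hx₀⟩ := hC (ε / 2) (by positivity)
    obtain ⟨x₁, hx₁⟩ := small_ll K₁ (ε / 2) (by positivity)
    obtain ⟨x₂, hx₂⟩ := large_l 0
    refine ⟨max x₀ (max x₁ x₂), fun x hx y _ hy => ?_⟩
    have g0 := hx₀ x (le_of_max_le_left hx)
    have g1 := hx₁ x (le_of_max_le_left (le_of_max_le_right hx))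
    have g2 := hx₂ x (le_of_max_le_right (le_of_max_le_right hx))
    have hsub : ((Ioc x (2 * x)).filter (fun n => Even n ∧
        ((Rough (S x) y n).card : ℝ) * Real.log x ^ C < x)) ⊆ Ioc x (x + y) ∪
        ((Ioc x (2 * x)).filter (fun n => Even n ∧
        ((Rep (S x) n).card : ℝ) * Real.log x ^ C < x)) := by
      intro n hn
      rw [mem_filter, mem_Ioc] at hn
      rw [mem_union, mem_Ioc, mem_filter, mem_Ioc]
      by_cases hny : n ≤ x + y
      · exact Or.inl ⟨hn.1.1, hny⟩
      · refine Or.inr ⟨hn.1, hn.2.1, lt_of_le_of_lt ?_ hn.2.2⟩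
        refine mul_le_mul_of_nonneg_right ?_ (pow_nonneg g2 _)
        exact_mod_cast card_le_card (rep_sub (hS x) (by omega))
    calc _ ≤ (((Ioc x (x + y) ∪ ((Ioc x (2 * x)).filter (fun n => Even n ∧
          ((Rep (S x) n).card : ℝ) * Real.log x ^ C < x))).card : ℕ) : ℝ) := by
          exact_mod_cast card_le_card hsub
      _ ≤ ((Ioc x (x + y)).card : ℝ) + (((Ioc x (2 * x)).filter (fun n => Even n ∧
          ((Rep (S x) n).card : ℝ) * Real.log x ^ C < x)).card : ℝ) := by
          exact_mod_cast card_union_le _ _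
      _ ≤ ε / 2 * x + ε / 2 * x := by
          refine add_le_add ?_ g0
          rw [card_small]
          exact hy.trans g1
      _ = ε * x := by ring
  · rintro ⟨C, hC⟩
    refine ⟨C + 2, fun ε hε => ?_⟩
    set δ : ℝ := min ε 1 / 4 with hδ
    have hδ0 : 0 < δ := by
      rw [hδ]
      have : 0 < min ε 1 := lt_min hε one_pos
      positivity
    have hδ1 : δ ≤ 1 / 4 := by
      rw [hδ]
      have : min ε 1 ≤ 1 := min_le_right _ _
      linarith
    have hδε : δ ≤ ε / 4 := by
      rw [hδ]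
      have : min ε 1 ≤ ε := min_le_left _ _
      linarith
    obtain ⟨Ka, hKa⟩ := hC δ hδ0
    obtain ⟨Kb, hKb⟩ := h4 C δ hδ0 (by linarith)
    set K := max Ka Kb with hK
    obtain ⟨x₀, hx₀⟩ := hKa (K + 1)
    obtain ⟨x₁, hx₁⟩ := hKb (K + 1)
    obtain ⟨x₂, hx₂⟩ := large_ll 1
    obtain ⟨x₃, hx₃⟩ := large_l 2
    refine ⟨max (max x₀ x₁) (max x₂ x₃), fun x hx => ?_⟩
    have g2 := hx₂ x (le_of_max_le_left (le_of_max_le_right hx))
    have g3 := hx₃ x (le_of_max_le_right (le_of_max_le_right hx))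
    set L := Real.log (Real.log x) with hL
    set y := ⌈(K : ℝ) * L⌉₊ with hy
    have hKL : 0 ≤ (K : ℝ) * L := mul_nonneg (Nat.cast_nonneg _) (by linarith)
    have hy1 : (K : ℝ) * L ≤ y := Nat.le_ceil _
    have hy2 : (y : ℝ) ≤ ((K + 1 : ℕ) : ℝ) * L := by
      have := Nat.ceil_lt_add_one hKL
      push_cast
      linarith
    have hya : (Ka : ℝ) * L ≤ y := by
      refine le_trans (mul_le_mul_of_nonneg_right ?_ (by linarith)) hy1
      exact_mod_cast le_max_left _ _
    have hyb : (Kb : ℝ) * L ≤ y := by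
      refine le_trans (mul_le_mul_of_nonneg_right ?_ (by linarith)) hy1
      exact_mod_cast le_max_right _ _
    have g0 := hx₀ x (le_of_max_le_left (le_of_max_le_left hx)) y hya hy2
    have g1 := hx₁ x (le_of_max_le_right (le_of_max_le_left hx)) y hyb hy2 (S x) (hS x)
    have hsub : ((Ioc x (2 * x)).filter (fun n => Even n ∧
        ((Rep (S x) n).card : ℝ) * Real.log x ^ (C + 2) < x)) ⊆
        ((Ioc x (2 * x)).filter (fun n => Even n ∧
        ((Rough (S x) y n).card : ℝ) * Real.log x ^ C < x)) ∪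
        ((Ioc x (2 * x)).filter (fun n => (x : ℝ) ≤ (Rough (S x) y n).card * Real.log x ^ C ∧
          δ * E (S x) x y n < |((Rep (S x) n).card : ℝ) - E (S x) x y n|)) := by
      intro n hn
      rw [mem_filter] at hn
      rw [mem_union, mem_filter, mem_filter]
      by_cases h1 : ((Rough (S x) y n).card : ℝ) * Real.log x ^ C < x
      · exact Or.inl ⟨hn.1, hn.2.1, h1⟩
      · refine Or.inr ⟨hn.1, not_lt.1 h1, ?_⟩
        by_contra h2
        rw [not_lt, abs_le] at h2
        rw [not_lt] at h1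
        have hV := V_pos y
        have hV1 := V_le_one y
        set R : ℝ := ((Rough (S x) y n).card : ℝ) with hR
        set P : ℝ := ((Rep (S x) n).card : ℝ) with hP
        set l := Real.log x with hl
        have hR0 : 0 ≤ R := Nat.cast_nonneg _
        have hl0 : 0 < l := by linarith
        have hE : R / l ≤ E (S x) x y n := by
          unfold E
          refine div_le_div_of_nonneg_left hR0 (by positivity) ?_
          nlinarith
        have hE0 : 0 ≤ R / l := by positivity
        have hPE : (1 / 2 : ℝ) * (R / l) ≤ P := by nlinarith [h2.1]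
        have h3 : (1 / 2 : ℝ) * R ≤ P * l := by
          have := mul_le_mul_of_nonneg_right hPE hl0.le
          have e : (1 / 2 : ℝ) * (R / l) * l = 1 / 2 * R := by field_simp
          linarith
        have h5 : 0 ≤ l ^ C := pow_nonneg hl0.le _
        have h6 : (1 / 2 : ℝ) * (R * l ^ C) ≤ P * l * l ^ C := by
          have := mul_le_mul_of_nonneg_right h3 h5
          linarith
        have h7 : 0 ≤ P * l * l ^ C := by positivity
        have h8 : P * l ^ (C + 2) = P * l * l ^ C * l := by ring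
        have h9 : P * l * l ^ C * 2 ≤ P * l * l ^ C * l := mul_le_mul_of_nonneg_left g3 h7
        have := hn.2.2
        rw [h8] at this
        linarith
    calc _ ≤ (((((Ioc x (2 * x)).filter (fun n => Even n ∧
        ((Rough (S x) y n).card : ℝ) * Real.log x ^ C < x)) ∪
        ((Ioc x (2 * x)).filter (fun n => (x : ℝ) ≤ (Rough (S x) y n).card * Real.log x ^ C ∧
          δ * E (S x) x y n < |((Rep (S x) n).card : ℝ) - E (S x) x y n|))).card : ℕ) : ℝ) := by
          exact_mod_cast card_le_card hsub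
      _ ≤ (((Ioc x (2 * x)).filter (fun n => Even n ∧
          ((Rough (S x) y n).card : ℝ) * Real.log x ^ C < x)).card : ℝ) +
          (((Ioc x (2 * x)).filter (fun n => (x : ℝ) ≤ (Rough (S x) y n).card * Real.log x ^ C ∧
          δ * E (S x) x y n < |((Rep (S x) n).card : ℝ) - E (S x) x y n|)).card : ℝ) := by
          exact_mod_cast card_union_le _ _
      _ ≤ δ * x + δ * x := add_le_add g0 g1
      _ ≤ ε * x := by
          have : (0 : ℝ) ≤ x := Nat.cast_nonneg _
          nlinarith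

end Pool.Agent.NH16.IG
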