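import Pool.Agent.NH16.IG.I1

set_option autoImplicit false

namespace Pool.Agent.NH16.IG

open Finset

/-- IG-7 -/
theorem iff2B (h4 : Descr) : Iff2 := by
  classical
  intro S hS
  constructor
  · rintro ⟨C, h⟩
    refine ⟨C, fun ε hε => ⟨0, fun K₁ => ?_⟩⟩
    obtain ⟨x₁, h1⟩ := h (ε / 2) (by positivity)
    obtain ⟨x₂, h2⟩ := I1.big K₁ 0 (show (0 : ℝ) < ε / 2 by positivity)
    refine ⟨max x₁ x₂, fun x hx y _ hy2 => ?_⟩
    have h1 := h1 x ((le_max_left _ _).trans hx)
    obtain ⟨a1, a2, a3, a4, a5, a6⟩ := h2 x ((le_max_right _ _).trans hx)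
    have hyx : (y : ℝ) ≤ ε / 2 * x := by linarith
    have hsub : (Ioc x (2 * x)).filter (fun n => Even n ∧ ((Rough (S x) y n).card : ℝ) * Real.log x ^ C < x) ⊆
        Ioc x (x + y) ∪ (Ioc x (2 * x)).filter (fun n => Even n ∧ ((Rep (S x) n).card : ℝ) * Real.log x ^ C < x) := by
      intro n hn
      rw [mem_filter, mem_Ioc] at hn
      obtain ⟨⟨hn1, hn2⟩, hn3, hn4⟩ := hn
      rw [mem_union, mem_Ioc]
      by_cases hc : n ≤ x + y
      · exact Or.inl ⟨hn1, hc⟩
      · right
        push Not at hc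
        rw [mem_filter, mem_Ioc]
        refine ⟨⟨hn1, hn2⟩, hn3, lt_of_le_of_lt ?_ hn4⟩
        have hcard : ((Rep (S x) n).card : ℝ) ≤ (Rough (S x) y n).card := by
          exact_mod_cast card_le_card (I1.rep_sub (hS x) hc)
        exact mul_le_mul_of_nonneg_right hcard (by positivity)
    have h3 : (((Ioc x (2 * x)).filter (fun n => Even n ∧
        ((Rough (S x) y n).card : ℝ) * Real.log x ^ C < x)).card : ℝ) ≤ ((Ioc x (x + y)).card : ℝ) +
        (((Ioc x (2 * x)).filter (fun n => Even n ∧ ((Rep (S x) n).card : ℝ) * Real.log x ^ C < x)).card : ℝ) := by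
      exact_mod_cast (card_le_card hsub).trans (card_union_le _ _)
    rw [Nat.card_Ioc] at h3
    have h5 : ((x + y - x : ℕ) : ℝ) = y := by
      congr 1
      omega
    rw [h5] at h3
    linarith
  · rintro ⟨C, h⟩
    refine ⟨C + 2, fun ε hε => ?_⟩
    set δ : ℝ := min (ε / 2) (1 / 2) with hδ
    have hδ0 : 0 < δ := lt_min (by positivity) (by norm_num)
    have hδ1 : δ ≤ 1 / 2 := min_le_right _ _
    have hδ2 : δ ≤ ε / 2 := min_le_left _ _
    obtain ⟨K₀, h1⟩ := h δ hδ0
    obtain ⟨K₂, h2⟩ := h4 C δ hδ0 (by linarith)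
    set K : ℕ := max (max K₀ K₂) 1 with hK
    obtain ⟨x₁, h1⟩ := h1 (K + 1)
    obtain ⟨x₂, h2⟩ := h2 (K + 1)
    obtain ⟨x₃, h3⟩ := I1.big (K + 1) 1 (show (0 : ℝ) < 1 by norm_num)
    refine ⟨max (max x₁ x₂) x₃, fun x hx => ?_⟩
    have b1 : x₁ ≤ x := le_trans (le_trans (le_max_left _ _) (le_max_left _ _)) hx
    have b2 : x₂ ≤ x := le_trans (le_trans (le_max_right _ _) (le_max_left _ _)) hx
    obtain ⟨a1, a2, a3, a4, a5, a6⟩ := h3 x ((le_max_right _ _).trans hx)
    push_cast at a4
    set LL : ℝ := Real.log (Real.log x) with hLL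
    have hLL0 : 0 ≤ LL := by linarith
    set y : ℕ := ⌈(K : ℝ) * LL⌉₊ with hy
    have hy1 : (K : ℝ) * LL ≤ y := Nat.le_ceil _
    have hy2 : (y : ℝ) ≤ ((K + 1 : ℕ) : ℝ) * LL := by
      have := (Nat.ceil_lt_add_one (show 0 ≤ (K : ℝ) * LL by positivity)).le
      push_cast
      rw [← hy] at this
      linarith
    have hK0 : ((K₀ : ℕ) : ℝ) ≤ K := by exact_mod_cast (le_trans (le_max_left _ _) (le_max_left _ _))
    have hK2 : ((K₂ : ℕ) : ℝ) ≤ K := by exact_mod_cast (le_trans (le_max_right _ _) (le_max_left _ _))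
    have h1 := h1 x b1 y ((mul_le_mul_of_nonneg_right hK0 hLL0).trans hy1) hy2
    have h2 := h2 x b2 y ((mul_le_mul_of_nonneg_right hK2 hLL0).trans hy1) hy2 (S x) (hS x)
    have hsub : (Ioc x (2 * x)).filter (fun n => Even n ∧ ((Rep (S x) n).card : ℝ) * Real.log x ^ (C + 2) < x) ⊆
        (Ioc x (2 * x)).filter (fun n => Even n ∧ ((Rough (S x) y n).card : ℝ) * Real.log x ^ C < x) ∪
        (Ioc x (2 * x)).filter (fun n => (x : ℝ) ≤ (Rough (S x) y n).card * Real.log x ^ C ∧
          δ * E (S x) x y n < |((Rep (S x) n).card : ℝ) - E (S x) x y n|) := by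
      intro n hn
      rw [mem_filter, mem_Ioc] at hn
      obtain ⟨⟨hn1, hn2⟩, hn3, hn4⟩ := hn
      rw [mem_union, mem_filter, mem_filter, mem_Ioc]
      by_cases hc : ((Rough (S x) y n).card : ℝ) * Real.log x ^ C < x
      · exact Or.inl ⟨⟨hn1, hn2⟩, hn3, hc⟩
      · right
        push Not at hc
        refine ⟨⟨hn1, hn2⟩, hc, ?_⟩
        by_contra hcon
        push Not at hcon
        have hlow := (abs_le.1 hcon).1
        have hV0 := I1.v_pos y
        have hV1 := I1.v_le y
        have hL : 0 < Real.log x := by linarith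
        have hR0 : (0 : ℝ) ≤ (Rough (S x) y n).card := Nat.cast_nonneg _
        have hE : ((Rough (S x) y n).card : ℝ) / Real.log x ≤ E (S x) x y n := by
          unfold E
          apply div_le_div_of_nonneg_left hR0 (by positivity)
          nlinarith
        have hE0 : 0 ≤ ((Rough (S x) y n).card : ℝ) / Real.log x := by positivity
        have hrep : (1 / 2) * (((Rough (S x) y n).card : ℝ) / Real.log x) ≤ (Rep (S x) n).card := by
          nlinarith
        have h6 : (x : ℝ) ≤ (Rep (S x) n).card * Real.log x ^ (C + 2) := by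
          calc (x : ℝ) ≤ (Rough (S x) y n).card * Real.log x ^ C := hc
            _ = (((Rough (S x) y n).card : ℝ) / Real.log x) * Real.log x ^ (C + 1) := by
                rw [pow_succ]
                field_simp
            _ ≤ (((Rough (S x) y n).card : ℝ) / Real.log x) * ((1 / 2) * Real.log x * Real.log x ^ (C + 1)) := by
                apply mul_le_mul_of_nonneg_left _ hE0
                have : 0 < Real.log x ^ (C + 1) := by positivity
                nlinarith
            _ = ((1 / 2) * (((Rough (S x) y n).card : ℝ) / Real.log x)) * Real.log x ^ (C + 2) := by ring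
            _ ≤ (Rep (S x) n).card * Real.log x ^ (C + 2) :=
                mul_le_mul_of_nonneg_right hrep (by positivity)
        linarith
    have h5 : (((Ioc x (2 * x)).filter (fun n => Even n ∧
        ((Rep (S x) n).card : ℝ) * Real.log x ^ (C + 2) < x)).card : ℝ) ≤
        (((Ioc x (2 * x)).filter (fun n => Even n ∧ ((Rough (S x) y n).card : ℝ) * Real.log x ^ C < x)).card : ℝ) +
        (((Ioc x (2 * x)).filter (fun n => (x : ℝ) ≤ (Rough (S x) y n).card * Real.log x ^ C ∧
          δ * E (S x) x y n < |((Rep (S x) n).card : ℝ) - E (S x) x y n|)).card : ℝ) := by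
      exact_mod_cast (card_le_card hsub).trans (card_union_le _ _)
    have hx0 : (0 : ℝ) ≤ x := by linarith
    have h7 : δ * x ≤ ε / 2 * x := mul_le_mul_of_nonneg_right hδ2 hx0
    linarith

end Pool.Agent.NH16.IG
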