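import Pool.Agent.NH16.IG.Stm
import Pool.Agent.Y877.SxO

/-!
# IG-1: lower bound in one class
-/

set_option autoImplicit false

namespace Pool.Agent.NH16.IG

open Finset

namespace Lo

theorem V_eq (y : ℕ) : V y = Pool.Agent.H373R2.T7.Vz y := rfl

/-- the elements of the shifted set have no small prime factors -/
theorem cop {M m x u p : ℕ} (hm : m < M) (hM1 : 1 ≤ M) (hu : u ≤ x) (hp : p.Prime) (hpM : p ∣ M)
    (h : Nat.Coprime (m + M * x - u) M) : ¬ p ∣ u + (M - m) := by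
  intro hd
  have hxM : x ≤ M * x := Nat.le_mul_of_pos_left x hM1
  have h1 : (p : ℤ) ∣ ((u + (M - m) : ℕ) : ℤ) := by exact_mod_cast hd
  have h2 : ((u + (M - m) : ℕ) : ℤ) = u + M - m := by
    push_cast [Nat.cast_sub hm.le]
    ring
  have h3 : ((m + M * x - u : ℕ) : ℤ) = m + M * x - u := by
    rw [Nat.cast_sub (by omega)]
    push_cast
    ring
  have h4 : (p : ℤ) ∣ (M : ℤ) := by exact_mod_cast hpM
  have h5 : (p : ℤ) ∣ ((m + M * x - u : ℕ) : ℤ) := by
    rw [h3]
    rw [h2] at h1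
    have h6 : (m : ℤ) + M * x - u = M * (x + 1) - (u + M - m) := by ring
    rw [h6]
    exact dvd_sub (h4.mul_right _) h1
  have h7 : p ∣ m + M * x - u := by exact_mod_cast h5
  have h8 := Nat.dvd_gcd h7 hpM
  rw [Nat.Coprime] at h
  rw [h] at h8
  exact hp.one_lt.ne' (Nat.dvd_one.1 h8)

open Classical in
/-- the counting step -/
theorem count {x M m g0 G : ℕ} (hm : m < M) (B Bad : Finset ℕ) (hB : B ⊆ Ioc x (2 * x))
    (hBm : ∀ n ∈ B, n % M = m) (hg0 : g0 ≤ x / M + 2) (hG : 2 * (x + M) / M ≤ g0 + G)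
    (hbad : ∀ n ∈ B, g0 < n / M + 1 → n / M + 1 - g0 ≤ G → n / M + 1 - g0 ∈ Bad) :
    B.card ≤ Bad.card + 2 := by
  have hM0 : 0 < M := by omega
  have hsub : B ⊆ (B.filter fun n => g0 < n / M + 1) ∪ (B.filter fun n => n / M + 1 ≤ g0) := by
    intro n hn
    rw [mem_union, mem_filter, mem_filter]
    rcases lt_or_ge g0 (n / M + 1) with h | h
    · exact Or.inl ⟨hn, h⟩
    · exact Or.inr ⟨hn, h⟩
  have hinj : ∀ n ∈ B, ∀ n' ∈ B, n / M = n' / M → n = n' := by
    intro n hn n' hn' h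
    rw [← Nat.div_add_mod n M, ← Nat.div_add_mod n' M, hBm n hn, hBm n' hn', h]
  have h1 : (B.filter fun n => g0 < n / M + 1).card ≤ Bad.card := by
    refine card_le_card_of_injOn (fun n => n / M + 1 - g0) ?_ ?_
    · intro n hn
      rw [mem_coe, mem_filter] at hn
      have h2 := mem_Ioc.1 (hB hn.1)
      refine hbad n hn.1 hn.2 ?_
      have h3 : n / M + 1 ≤ 2 * (x + M) / M := by
        rw [Nat.le_div_iff_mul_le hM0, add_mul, one_mul]
        have := Nat.div_mul_le_self n M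
        omega
      omega
    · intro n hn n' hn' h
      rw [mem_coe, mem_filter] at hn hn'
      refine hinj n hn.1 n' hn'.1 ?_
      simp only at h
      omega
  have h2 : (B.filter fun n => n / M + 1 ≤ g0).card ≤ (Icc (x / M) (x / M + 1)).card := by
    refine card_le_card_of_injOn (fun n => n / M) ?_ ?_
    · intro n hn
      rw [mem_coe, mem_filter] at hn
      have h2 := mem_Ioc.1 (hB hn.1)
      rw [mem_coe, mem_Icc]
      change x / M ≤ n / M ∧ n / M ≤ x / M + 1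
      exact ⟨Nat.div_le_div_right h2.1.le, by omega⟩
    · intro n hn n' hn' h
      rw [mem_coe, mem_filter] at hn hn'
      exact hinj n hn.1 n' hn'.1 h
  have h3 : (Icc (x / M) (x / M + 1)).card = 2 := by
    rw [Nat.card_Icc]
    omega
  calc B.card ≤ _ := card_le_card hsub
    _ ≤ _ := card_union_le _ _
    _ ≤ Bad.card + 2 := by omega

end Lo

/-- IG-1 -/
theorem lowClass : LowClass := by
  intro C ε hε hε1
  obtain ⟨K0, hK0⟩ := Pool.Agent.Y877.SX.shifts_neg 1 (Or.inl rfl) (C + 1) 1 (ε / 8) (by positivity)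
  refine ⟨2 * K0, fun K₁ => ?_⟩
  obtain ⟨x1, hx1⟩ := hK0 K₁
  obtain ⟨x2, hx2⟩ := Pool.Agent.H373R2.T7.ev_L' (max (Real.exp 1) (max 4 (3 / ε)))
  obtain ⟨x3, hx3⟩ := Pool.Agent.H373R2.T7.ev_log' (2 * K₁) (8 / ε)
  refine ⟨x1 + x2 + x3 + 1, fun x hx y hy1 hy2 m hm T hT hcop hcard => ?_⟩
  have hL := hx2 x (by omega)
  have hc := hx3 x (by omega)
  have hxr : (1 : ℝ) ≤ x := by exact_mod_cast (by omega : 1 ≤ x)
  have hx0 : (0 : ℝ) < x := by linarith
  obtain ⟨L, hLd⟩ : ∃ L : ℝ, L = Real.log x := ⟨_, rfl⟩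
  rw [← hLd] at hL hc hy1 hy2 hcard ⊢
  have hL1 : Real.exp 1 ≤ L := (le_max_left _ _).trans hL
  have hL2 : 4 ≤ L := ((le_max_left _ _).trans (le_max_right _ _)).trans hL
  have hL3 : 3 / ε ≤ L := ((le_max_right _ _).trans (le_max_right _ _)).trans hL
  have hL0 : 0 < L := by linarith
  have hML : ((primorial y : ℕ) : ℝ) ≤ L ^ (2 * K₁) :=
    Pool.Agent.Y877.SX.primorial_le_log K₁ y L hL1 hy2
  have happ := hx1 (x + primorial y) (by omega) y
  have hpM : ∀ p : ℕ, p.Prime → p ≤ y → p ∣ primorial y := fun p hp hpy => hp.dvd_primorial_iff.2 hpy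
  have hM1 : 1 ≤ primorial y := primorial_pos y
  obtain ⟨M, hM⟩ : ∃ M, M = primorial y := ⟨_, rfl⟩
  rw [← hM] at hm hcop hML happ hpM hM1 ⊢
  have hMr : (1 : ℝ) ≤ M := by exact_mod_cast hM1
  have hsq : √(x : ℝ) ≤ x := by
    rw [Real.sqrt_le_left hx0.le]
    nlinarith
  have hMx : 8 / ε * M ≤ x :=
    ((mul_le_mul_of_nonneg_left hML (by positivity)).trans hc).trans hsq
  have h8 : 8 * (M : ℝ) ≤ x := by
    refine le_trans (mul_le_mul_of_nonneg_right ?_ (by linarith)) hMx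
    rw [le_div_iff₀ hε]
    linarith
  have h8' : 8 * M ≤ x := by exact_mod_cast h8
  obtain ⟨x', hx'⟩ : ∃ x', x' = x + M := ⟨_, rfl⟩
  rw [← hx'] at happ
  have hx'r : (x' : ℝ) = x + M := by rw [hx']; push_cast; ring
  have hx'0 : (0 : ℝ) < x' := by rw [hx'r]; linarith
  have hx'2 : (x' : ℝ) ≤ 2 * x := by rw [hx'r]; linarith
  obtain ⟨L', hL'd⟩ : ∃ L' : ℝ, L' = Real.log x' := ⟨_, rfl⟩
  have hLL' : L ≤ L' := by
    rw [hLd, hL'd]
    exact Real.log_le_log hx0 (by rw [hx'r]; linarith)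
  have hl2 : Real.log 2 ≤ 0.7 := by
    have := Real.log_two_lt_d9
    linarith
  have hL'2 : L' ≤ L + 0.7 := by
    rw [hL'd, hLd]
    calc Real.log x' ≤ Real.log (2 * x) := Real.log_le_log hx'0 hx'2
      _ = Real.log 2 + Real.log x := Real.log_mul (by norm_num) hx0.ne'
      _ ≤ Real.log x + 0.7 := by linarith
  have hlog2x' : Real.log (2 * (x' : ℝ)) ≤ L + 1.4 := by
    rw [Real.log_mul (by norm_num) hx'0.ne', ← hL'd]
    linarith
  have hlog2x'0 : 0 < Real.log (2 * (x' : ℝ)) := by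
    rw [Real.log_mul (by norm_num) hx'0.ne', ← hL'd]
    have := Real.log_pos (by norm_num : (1 : ℝ) < 2)
    linarith
  have hlL : 1 ≤ Real.log L := by
    rw [← Real.log_exp 1]
    exact Real.log_le_log (Real.exp_pos 1) hL1
  have hlL' : Real.log L' ≤ 2 * Real.log L := by
    calc Real.log L' ≤ Real.log (2 * L) := Real.log_le_log (by linarith) (by linarith)
      _ = Real.log 2 + Real.log L := Real.log_mul (by norm_num) hL0.ne'
      _ ≤ 2 * Real.log L := by linarith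
  have ha : (K0 : ℝ) * Real.log (Real.log x') ≤ y := by
    rw [← hL'd]
    push_cast at hy1
    calc (K0 : ℝ) * Real.log L' ≤ K0 * (2 * Real.log L) :=
          mul_le_mul_of_nonneg_left hlL' (Nat.cast_nonneg _)
      _ = 2 * K0 * Real.log L := by ring
      _ ≤ y := hy1
  have hb : (y : ℝ) ≤ K₁ * Real.log (Real.log x') := by
    rw [← hL'd]
    exact hy2.trans (mul_le_mul_of_nonneg_left (Real.log_le_log hL0 hLL') (Nat.cast_nonneg _))
  -- the shifted set
  obtain ⟨S, hS⟩ : ∃ S : Finset ℕ, S = T.image (fun u => u + (M - m)) := ⟨_, rfl⟩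
  have hScard : S.card = T.card := by
    rw [hS]
    exact card_image_of_injective _ (add_left_injective _)
  have hS1 : S ⊆ Icc 1 x' := by
    intro s hs
    rw [hS, mem_image] at hs
    obtain ⟨u, hu, rfl⟩ := hs
    have := mem_Icc.1 (hT hu)
    rw [mem_Icc]
    omega
  have hS2 : (x' : ℝ) ≤ S.card * Real.log x' ^ (C + 1) := by
    rw [hScard, ← hL'd, pow_succ]
    have h1 : (T.card : ℝ) * L ^ C ≤ T.card * L' ^ C :=
      mul_le_mul_of_nonneg_left (pow_le_pow_left₀ hL0.le hLL' C) (Nat.cast_nonneg _)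
    have h2 : 0 ≤ (T.card : ℝ) * L' ^ C := by
      have : 0 ≤ L' := by linarith
      positivity
    have h3 : (T.card : ℝ) * L' ^ C * 2 ≤ T.card * L' ^ C * L' :=
      mul_le_mul_of_nonneg_left (by linarith) h2
    calc (x' : ℝ) ≤ 2 * x := hx'2
      _ ≤ 2 * (T.card * L' ^ C) := by linarith
      _ = T.card * L' ^ C * 2 := by ring
      _ ≤ T.card * L' ^ C * L' := h3
      _ = T.card * (L' ^ C * L') := by ring
  have hS3 : ∀ s ∈ S, ∀ p : ℕ, p.Prime → p ≤ y → ¬ p ∣ s := by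
    intro s hs p hp hpy
    rw [hS, mem_image] at hs
    obtain ⟨u, hu, rfl⟩ := hs
    exact Lo.cop hm hM1 (mem_Icc.1 (hT hu)).2 hp (hpM p hp hpy) (hcop u hu)
  -- the window
  have hM0 : 0 < M := hM1
  obtain ⟨g0, hg0⟩ : ∃ g0, g0 = (x' + M - 1) / M := ⟨_, rfl⟩
  obtain ⟨q2, hq2⟩ : ∃ q2, q2 = 2 * x' / M := ⟨_, rfl⟩
  have hg0a : x' ≤ M * g0 := by
    have h1 := Nat.lt_mul_div_succ (x' + M - 1) hM0
    rw [← hg0, mul_add, mul_one] at h1
    omega
  have hg0b : M * g0 ≤ x' + M - 1 := by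
    rw [hg0]
    exact Nat.mul_div_le _ _
  have hq2a : M * q2 ≤ 2 * x' := by
    rw [hq2]
    exact Nat.mul_div_le _ _
  have hq2b : 2 * x' < M * q2 + M := by
    have h1 := Nat.lt_mul_div_succ (2 * x') hM0
    rw [← hq2, mul_add, mul_one] at h1
    exact h1
  have hle : g0 ≤ q2 := by
    rw [hq2, Nat.le_div_iff_mul_le hM0, mul_comm]
    omega
  obtain ⟨G, hG⟩ : ∃ G, q2 = g0 + G := ⟨q2 - g0, by omega⟩
  have hMG : M * (g0 + G) ≤ 2 * x' := by rw [← hG]; exact hq2a
  have hMG1 : M * G ≤ x' := by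
    rw [mul_add] at hMG
    omega
  have hMG2 : x' ≤ M * G + 2 * M := by
    rw [hG, mul_add] at hq2b
    omega
  have hw3 : (x' : ℝ) ^ 1 ≤ M * G * Real.log x' ^ 1 := by
    rw [pow_one, pow_one, ← hL'd]
    have h1 : (x' : ℝ) ≤ M * G + 2 * M := by exact_mod_cast hMG2
    have h2 : (x' : ℝ) ≤ 2 * (M * G) := by linarith
    have h3 : (0 : ℝ) ≤ M * G := by positivity
    calc (x' : ℝ) ≤ 2 * (M * G) := h2
      _ ≤ L' * (M * G) := mul_le_mul_of_nonneg_right (by linarith) h3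
      _ = M * G * L' := by ring
  have happ2 := happ ha hb S hS1 hS2 hS3 g0 G (by rw [pow_one]; exact hg0a)
    (by rw [pow_one]; exact hMG) hw3
  obtain ⟨Bad, hBad, happ3⟩ : ∃ Bad : Finset ℕ, (∀ g : ℕ, 1 ≤ g → g ≤ G →
      ((S.filter (fun s : ℕ => Nat.Prime (M * (g0 + g) - s ^ 1))).card : ℝ) *
        Real.log (2 * (x' : ℝ) ^ 1) < (1 - 3 * (ε / 8)) * (S.card *
          (Pool.Agent.H373R2.T7.Vz y)⁻¹) → g ∈ Bad) ∧ (Bad.card : ℝ) ≤ 3 * (ε / 8) * G := by
    refine ⟨_, ?_, happ2⟩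
    intro g h1 h2 h3
    rw [mem_filter, mem_Icc]
    exact ⟨⟨h1, h2⟩, h3⟩
  have hcount := Lo.count (x := x) (M := M) (m := m) (g0 := g0) (G := G) hm
    ((Ioc x (2 * x)).filter (fun n => n % M = m ∧
      ((Rep T n).card : ℝ) < (1 - ε) * (T.card / (V y * L)))) Bad (filter_subset _ _)
    (fun n hn => (mem_filter.1 hn).2.1)
    (by
      have h1 : g0 ≤ (x + M * 2) / M := by
        rw [hg0]
        exact Nat.div_le_div_right (by omega)
      rwa [Nat.add_mul_div_left _ _ hM0] at h1)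
    (by rw [← hx', ← hq2, hG])
    (by
      intro n hn h1 h2
      obtain ⟨hn1, hn2, hn3⟩ := mem_filter.1 hn
      refine hBad _ (by omega) h2 ?_
      have e1 : g0 + (n / M + 1 - g0) = n / M + 1 := by omega
      have e2 : M * (n / M + 1) = n + (M - m) := by
        have := Nat.div_add_mod n M
        rw [hn2] at this
        rw [mul_add, mul_one]
        omega
      have e3 : (S.filter (fun s : ℕ => Nat.Prime (M * (g0 + (n / M + 1 - g0)) - s ^ 1))).card =
          (Rep T n).card := by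
        rw [hS, filter_image, card_image_of_injective _ (add_left_injective _)]
        unfold Rep
        congr 1
        apply filter_congr
        intro u _
        rw [e1, e2, pow_one, Nat.add_sub_add_right]
      rw [e3, hScard, pow_one, ← Lo.V_eq]
      have hV : 0 < V y := by
        rw [Lo.V_eq]
        exact Pool.Agent.H373R2.T7.Vz_pos y
      have h3 : ((Rep T n).card : ℝ) * Real.log (2 * (x' : ℝ)) <
          (1 - ε) * (T.card / (V y * L)) * Real.log (2 * (x' : ℝ)) :=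
        mul_lt_mul_of_pos_right hn3 hlog2x'0
      refine h3.trans_le ?_
      have h4 : (1 - ε) * (T.card / (V y * L)) * Real.log (2 * (x' : ℝ)) =
          ((1 - ε) * (Real.log (2 * (x' : ℝ)) / L)) * (T.card * (V y)⁻¹) := by
        field_simp
      rw [h4]
      refine mul_le_mul_of_nonneg_right ?_ (by positivity)
      have h5 : Real.log (2 * (x' : ℝ)) / L ≤ 1 + ε / 2 := by
        rw [div_le_iff₀ hL0]
        have h6 : 3 ≤ L * ε := by rwa [div_le_iff₀ hε] at hL3
        nlinarith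
      have h6 : 0 ≤ 1 - ε := by linarith
      calc (1 - ε) * (Real.log (2 * (x' : ℝ)) / L) ≤ (1 - ε) * (1 + ε / 2) :=
            mul_le_mul_of_nonneg_left h5 h6
        _ ≤ 1 - 3 * (ε / 8) := by nlinarith)
  have hcR : ((((Ioc x (2 * x)).filter (fun n => n % M = m ∧
      ((Rep T n).card : ℝ) < (1 - ε) * (T.card / (V y * L)))).card : ℕ) : ℝ) ≤
      3 * (ε / 8) * G + 2 := by
    have h1 : ((((Ioc x (2 * x)).filter (fun n => n % M = m ∧
      ((Rep T n).card : ℝ) < (1 - ε) * (T.card / (V y * L)))).card : ℕ) : ℝ) ≤ (Bad.card : ℝ) + 2 := by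
      exact_mod_cast hcount
    linarith
  refine hcR.trans ?_
  have hMpos : (0 : ℝ) < M := by linarith
  have hGr : (G : ℝ) ≤ x / M + 1 := by
    have h1 : (M : ℝ) * G ≤ x + M := by
      rw [← hx'r]
      exact_mod_cast hMG1
    have h2 : (x : ℝ) / M + 1 = (x + M) / M := by field_simp
    rw [h2, le_div_iff₀ hMpos]
    linarith
  have hxM : 8 / ε ≤ x / M := by
    rw [le_div_iff₀ hMpos]
    exact hMx
  have hxM2 : 8 ≤ ε * (x / M) := by
    rw [div_le_iff₀ hε] at hxM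
    linarith
  nlinarith

end Pool.Agent.NH16.IG
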