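import Pool.Agent.NH16.IG.Stm

/-!
# IG-5: the tail of the singular series
-/

set_option autoImplicit false

namespace Pool.Agent.NH16.IG

open Finset

namespace SgT

/-- the factor of the singular series -/
noncomputable def f (p n : ℕ) : ℝ :=
  (if p ∣ n then (1 : ℝ) else 1 - 1 / ((p : ℝ) - 1)) / (1 - 1 / (p : ℝ))

lemma Sg_eq (y n : ℕ) : Sg y n = ∏ p ∈ (Icc 1 y).filter Nat.Prime, f p n := by
  unfold Sg Lc V f
  rw [prod_div_distrib]

lemma f_dvd {p n : ℕ} (hp : p.Prime) (h : p ∣ n) : f p n = (p : ℝ) / (p - 1) := by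
  have h2 : (2 : ℝ) ≤ p := by exact_mod_cast hp.two_le
  have h1 : (p : ℝ) - 1 ≠ 0 := by linarith
  have h0 : (p : ℝ) ≠ 0 := by linarith
  unfold f
  rw [if_pos h]
  field_simp

lemma f_not {p n : ℕ} (hp : p.Prime) (h : ¬ p ∣ n) : f p n = 1 - 1 / ((p : ℝ) - 1) ^ 2 := by
  have h2 : (2 : ℝ) ≤ p := by exact_mod_cast hp.two_le
  have h1 : (p : ℝ) - 1 ≠ 0 := by linarith
  have h0 : (p : ℝ) ≠ 0 := by linarith
  unfold f
  rw [if_neg h]
  field_simp
  ring

lemma sq_le {p : ℕ} (hp : p.Prime) : 1 / ((p : ℝ) - 1) ^ 2 ≤ 1 := by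
  have h2 : (2 : ℝ) ≤ p := by exact_mod_cast hp.two_le
  rw [div_le_one (by nlinarith)]
  nlinarith

lemma sq_le' {p : ℕ} (hp : p.Prime) : 1 / ((p : ℝ) - 1) ^ 2 ≤ 4 * ((p : ℝ) ^ 2)⁻¹ := by
  have h2 : (2 : ℝ) ≤ p := by exact_mod_cast hp.two_le
  have h3 : (p : ℝ) / 2 ≤ p - 1 := by linarith
  have h4 : ((p : ℝ) / 2) ^ 2 ≤ ((p : ℝ) - 1) ^ 2 := pow_le_pow_left₀ (by linarith) h3 2
  calc 1 / ((p : ℝ) - 1) ^ 2 ≤ 1 / ((p : ℝ) / 2) ^ 2 := by
        apply one_div_le_one_div_of_le (by positivity) h4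
    _ = _ := by field_simp; norm_num

lemma f_lower {p n : ℕ} (hp : p.Prime) : 1 - 1 / ((p : ℝ) - 1) ^ 2 ≤ f p n := by
  by_cases h : p ∣ n
  · rw [f_dvd hp h]
    have h2 : (2 : ℝ) ≤ p := by exact_mod_cast hp.two_le
    have h3 : 0 ≤ 1 / ((p : ℝ) - 1) ^ 2 := by positivity
    have h4 : (1 : ℝ) ≤ p / (p - 1) := by
      rw [one_le_div (by linarith)]
      linarith
    linarith
  · rw [f_not hp h]

lemma f_nonneg {p n : ℕ} (hp : p.Prime) : 0 ≤ f p n := by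
  have h1 := sq_le hp
  have h2 := f_lower (n := n) hp
  linarith

/-- the weight -/
noncomputable def w (p n : ℕ) : ℝ := if p ∣ n then 2 / (p : ℝ) else 0

lemma w_nonneg (p n : ℕ) : 0 ≤ w p n := by
  unfold w
  split_ifs <;> positivity

lemma f_upper {p n : ℕ} (hp : p.Prime) : f p n ≤ Real.exp (w p n) := by
  have h2 : (2 : ℝ) ≤ p := by exact_mod_cast hp.two_le
  unfold w
  split_ifs with h
  · rw [f_dvd hp h]
    have h3 : (p : ℝ) / (p - 1) ≤ 2 / p + 1 := by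
      rw [div_le_iff₀ (by linarith)]
      have h4 : (2 / (p : ℝ) + 1) * (p - 1) = p + 1 - 2 / p := by field_simp; ring
      rw [h4]
      have h5 : 2 / (p : ℝ) ≤ 1 := by
        rw [div_le_one (by linarith)]
        exact h2
      linarith
    exact h3.trans (Real.add_one_le_exp _)
  · rw [f_not hp h, Real.exp_zero]
    have : 0 ≤ 1 / ((p : ℝ) - 1) ^ 2 := by positivity
    linarith

lemma one_sub_sum {ι : Type} (T : Finset ι) (a : ι → ℝ) (h0 : ∀ i ∈ T, 0 ≤ a i)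
    (h1 : ∀ i ∈ T, a i ≤ 1) : 1 - ∑ i ∈ T, a i ≤ ∏ i ∈ T, (1 - a i) := by
  classical
  induction T using Finset.induction_on with
  | empty => simp
  | insert i T hi ih =>
    rw [sum_insert hi, prod_insert hi]
    have h2 := ih (fun j hj => h0 j (mem_insert_of_mem hj)) (fun j hj => h1 j (mem_insert_of_mem hj))
    have h3 := h0 i (mem_insert_self _ _)
    have h4 := h1 i (mem_insert_self _ _)
    have h5 : 0 ≤ ∑ j ∈ T, a j := sum_nonneg fun j hj => h0 j (mem_insert_of_mem hj)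
    calc 1 - (a i + ∑ j ∈ T, a j) ≤ (1 - a i) * (1 - ∑ j ∈ T, a j) := by nlinarith
      _ ≤ _ := mul_le_mul_of_nonneg_left h2 (by linarith)

lemma Sg_split {y n : ℕ} (h : y ≤ n) :
    Sg n n = Sg y n * ∏ p ∈ (Ioc y n).filter Nat.Prime, f p n := by
  rw [Sg_eq, Sg_eq, ← prod_union]
  · congr 1
    ext p
    rw [mem_union, mem_filter, mem_filter, mem_filter, mem_Icc, mem_Icc, mem_Ioc]
    constructor
    · rintro ⟨h1, h2⟩
      rcases Nat.lt_or_ge y p with h3 | h3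
      · exact Or.inr ⟨⟨h3, h1.2⟩, h2⟩
      · exact Or.inl ⟨⟨h1.1, h3⟩, h2⟩
    · rintro (⟨h1, h2⟩ | ⟨h1, h2⟩)
      · exact ⟨⟨h1.1, h1.2.trans h⟩, h2⟩
      · exact ⟨⟨h2.one_lt.le, h1.2⟩, h2⟩
  · rw [disjoint_left]
    intro p h1 h2
    rw [mem_filter, mem_Icc] at h1
    rw [mem_filter, mem_Ioc] at h2
    omega

lemma Sg_nonneg (y n : ℕ) : 0 ≤ Sg y n := by
  rw [Sg_eq]
  exact prod_nonneg fun p hp => f_nonneg (mem_filter.1 hp).2

/-- the additive weight -/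
noncomputable def s (y M n : ℕ) : ℝ := ∑ p ∈ (Ioc y M).filter Nat.Prime, w p n

lemma good {y x n : ℕ} {ε δ : ℝ} (hy : 0 < y) (hδ : 0 < δ) (hδ1 : δ ≤ 1 / 2) (hδε : δ ≤ ε / 2)
    (hyδ : 4 / (y : ℝ) ≤ δ) (hyn : y ≤ n) (hn : n ≤ 2 * x) (hs : s y (2 * x) n ≤ δ / 2) :
    |Sg n n - Sg y n| ≤ ε * Sg n n := by
  have hsplit := Sg_split hyn
  set Q := ∏ p ∈ (Ioc y n).filter Nat.Prime, f p n with hQ
  have hpr : ∀ p ∈ (Ioc y n).filter Nat.Prime, p.Prime := fun p hp => (mem_filter.1 hp).2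
  have hlow : 1 - δ ≤ Q := by
    have h1 : ∏ p ∈ (Ioc y n).filter Nat.Prime, (1 - 1 / ((p : ℝ) - 1) ^ 2) ≤ Q :=
      prod_le_prod (fun p hp => by linarith [sq_le (hpr p hp)]) (fun p hp => f_lower (hpr p hp))
    have h2 := one_sub_sum ((Ioc y n).filter Nat.Prime) (fun p => 1 / ((p : ℝ) - 1) ^ 2)
      (fun p _ => by positivity) (fun p hp => sq_le (hpr p hp))
    have h3 : ∑ p ∈ (Ioc y n).filter Nat.Prime, 1 / ((p : ℝ) - 1) ^ 2 ≤ 4 / (y : ℝ) := by
      calc ∑ p ∈ (Ioc y n).filter Nat.Prime, 1 / ((p : ℝ) - 1) ^ 2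
          ≤ ∑ p ∈ (Ioc y n).filter Nat.Prime, 4 * ((p : ℝ) ^ 2)⁻¹ :=
            sum_le_sum fun p hp => sq_le' (hpr p hp)
        _ ≤ ∑ p ∈ Ioc y n, 4 * ((p : ℝ) ^ 2)⁻¹ :=
            sum_le_sum_of_subset_of_nonneg (filter_subset _ _) fun p _ _ => by positivity
        _ = 4 * ∑ p ∈ Ioc y n, ((p : ℝ) ^ 2)⁻¹ := by rw [mul_sum]
        _ ≤ 4 * ((y : ℝ)⁻¹ - (n : ℝ)⁻¹) := by
            gcongr
            exact sum_Ioc_inv_sq_le_sub (by omega) hyn
        _ ≤ 4 / (y : ℝ) := by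
            have : 0 ≤ (n : ℝ)⁻¹ := by positivity
            rw [div_eq_mul_inv]
            linarith
    linarith
  have hup : Q ≤ 1 + δ := by
    have h1 : Q ≤ ∏ p ∈ (Ioc y n).filter Nat.Prime, Real.exp (w p n) :=
      prod_le_prod (fun p hp => f_nonneg (hpr p hp)) (fun p hp => f_upper (hpr p hp))
    rw [← Real.exp_sum] at h1
    have h2 : ∑ p ∈ (Ioc y n).filter Nat.Prime, w p n ≤ s y (2 * x) n := by
      unfold s
      apply sum_le_sum_of_subset_of_nonneg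
      · intro p hp
        rw [mem_filter, mem_Ioc] at hp ⊢
        exact ⟨⟨hp.1.1, hp.1.2.trans hn⟩, hp.2⟩
      · intro p _ _
        exact w_nonneg p n
    have h3 : Real.exp (δ / 2) ≤ 1 + δ := by
      have h4 := Real.abs_exp_sub_one_sub_id_le (x := δ / 2) (by rw [abs_of_pos (by positivity)]; linarith)
      have h5 := (abs_le.1 h4).2
      nlinarith
    calc Q ≤ Real.exp (∑ p ∈ (Ioc y n).filter Nat.Prime, w p n) := h1
      _ ≤ Real.exp (δ / 2) := Real.exp_le_exp.2 (h2.trans hs)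
      _ ≤ 1 + δ := h3
  have hS := Sg_nonneg y n
  have h1 : |Q - 1| ≤ ε * Q := by
    rw [abs_le]
    constructor
    · nlinarith
    · nlinarith
  rw [hsplit]
  calc |Sg y n * Q - Sg y n| = Sg y n * |Q - 1| := by
        rw [← abs_of_nonneg hS, ← abs_mul, abs_of_nonneg hS]
        congr 1
        ring
    _ ≤ Sg y n * (ε * Q) := mul_le_mul_of_nonneg_left h1 hS
    _ = _ := by ring

lemma total {x y : ℕ} (hy : 0 < y) (hyx : y ≤ x) :
    ∑ n ∈ Ioc x (2 * x), s y (2 * x) n ≤ 4 * x / y := by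
  unfold s
  rw [sum_comm]
  calc ∑ p ∈ (Ioc y (2 * x)).filter Nat.Prime, ∑ n ∈ Ioc x (2 * x), w p n
      ≤ ∑ p ∈ (Ioc y (2 * x)).filter Nat.Prime, 4 * x * ((p : ℝ) ^ 2)⁻¹ := by
        apply sum_le_sum
        intro p hp
        have hpp := (mem_filter.1 hp).2
        have hp0 : (0 : ℝ) < p := by exact_mod_cast hpp.pos
        have h1 : ∑ n ∈ Ioc x (2 * x), w p n = ((Ioc x (2 * x)).filter (fun n => p ∣ n)).card * (2 / (p : ℝ)) := by
          unfold w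
          rw [← sum_filter, sum_const, nsmul_eq_mul]
        have h2 : ((Ioc x (2 * x)).filter (fun n => p ∣ n)).card ≤ 2 * x / p := by
          rw [← Nat.Ioc_filter_dvd_card_eq_div (2 * x) p]
          apply card_le_card
          intro n hn
          rw [mem_filter, mem_Ioc] at hn ⊢
          exact ⟨⟨by omega, hn.1.2⟩, hn.2⟩
        have h3 : (((Ioc x (2 * x)).filter (fun n => p ∣ n)).card : ℝ) ≤ 2 * x / p := by
          calc (((Ioc x (2 * x)).filter (fun n => p ∣ n)).card : ℝ) ≤ ((2 * x / p : ℕ) : ℝ) := by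
                exact_mod_cast h2
            _ ≤ ((2 * x : ℕ) : ℝ) / p := Nat.cast_div_le
            _ = 2 * x / p := by push_cast; ring
        rw [h1]
        calc (((Ioc x (2 * x)).filter (fun n => p ∣ n)).card : ℝ) * (2 / (p : ℝ))
            ≤ (2 * x / p) * (2 / p) := by gcongr
          _ = 4 * x * ((p : ℝ) ^ 2)⁻¹ := by field_simp; ring
    _ ≤ ∑ p ∈ Ioc y (2 * x), 4 * x * ((p : ℝ) ^ 2)⁻¹ :=
        sum_le_sum_of_subset_of_nonneg (filter_subset _ _) fun p _ _ => by positivity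
    _ = 4 * x * ∑ p ∈ Ioc y (2 * x), ((p : ℝ) ^ 2)⁻¹ := by rw [mul_sum]
    _ ≤ 4 * x * ((y : ℝ)⁻¹ - ((2 * x : ℕ) : ℝ)⁻¹) := by
        gcongr
        exact sum_Ioc_inv_sq_le_sub (by omega) (by omega)
    _ ≤ 4 * x / y := by
        have h1 : 0 ≤ (((2 * x : ℕ) : ℝ))⁻¹ := by positivity
        rw [div_eq_mul_inv]
        have h2 : (0 : ℝ) ≤ 4 * x := by positivity
        nlinarith

end SgT

open SgT in
/-- IG-5 -/
theorem sgTail : SgTail := by
  classical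
  intro ε hε
  set δ : ℝ := min (ε / 2) (1 / 2) with hδ
  have hδ0 : 0 < δ := lt_min (by positivity) (by norm_num)
  obtain ⟨Y, hY⟩ := exists_nat_ge (max (4 / δ) (8 / (δ * ε)))
  refine ⟨Y + 1, ?_⟩
  intro x hx y hy hyx
  have hy0 : 0 < y := by omega
  have hyr : (0 : ℝ) < y := by exact_mod_cast hy0
  have hYy : (Y : ℝ) ≤ y := by exact_mod_cast (by omega : Y ≤ y)
  have h1 : 4 / (y : ℝ) ≤ δ := by
    rw [div_le_iff₀ hyr]
    have : 4 / δ ≤ y := (le_max_left _ _).trans (hY.trans hYy)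
    rw [div_le_iff₀ hδ0] at this
    linarith
  have h2 : 8 ≤ δ * ε * y := by
    have : 8 / (δ * ε) ≤ y := (le_max_right _ _).trans (hY.trans hYy)
    rw [div_le_iff₀ (by positivity)] at this
    linarith
  set Bad := (Ioc x (2 * x)).filter (fun n => δ / 2 < s y (2 * x) n) with hBad
  have hsub : (Ioc x (2 * x)).filter (fun n => ε * Sg n n < |Sg n n - Sg y n|) ⊆ Bad := by
    intro n hn
    rw [mem_filter, mem_Ioc] at hn
    rw [hBad, mem_filter, mem_Ioc]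
    refine ⟨hn.1, ?_⟩
    by_contra hcon
    have := good hy0 hδ0 (min_le_right _ _) (min_le_left _ _) h1 (by omega) hn.1.2 (not_lt.1 hcon)
    linarith [hn.2]
  have h3 : (Bad.card : ℝ) * (δ / 2) ≤ 4 * x / y := by
    calc (Bad.card : ℝ) * (δ / 2) = ∑ _n ∈ Bad, δ / 2 := by rw [sum_const, nsmul_eq_mul]
      _ ≤ ∑ n ∈ Bad, s y (2 * x) n := sum_le_sum fun n hn => (mem_filter.1 hn).2.le
      _ ≤ ∑ n ∈ Ioc x (2 * x), s y (2 * x) n :=
          sum_le_sum_of_subset_of_nonneg (filter_subset _ _) fun n _ _ =>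
            sum_nonneg fun p _ => w_nonneg p n
      _ ≤ _ := total hy0 hyx
  have h4 : (Bad.card : ℝ) ≤ ε * x := by
    rw [le_div_iff₀ hyr] at h3
    have hx0 : (0 : ℝ) ≤ x := Nat.cast_nonneg _
    have hδε : 0 < δ * y := by positivity
    have h5 : (Bad.card : ℝ) * (δ * y) ≤ (ε * x) * (δ * y) := by
      calc (Bad.card : ℝ) * (δ * y) = 2 * (Bad.card * (δ / 2) * y) := by ring
        _ ≤ 2 * (4 * x) := by linarith
        _ = 8 * x := by ring
        _ ≤ (δ * ε * y) * x := mul_le_mul_of_nonneg_right h2 hx0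
        _ = _ := by ring
    exact le_of_mul_le_mul_right h5 hδε
  refine le_trans ?_ h4
  exact_mod_cast card_le_card hsub

end Pool.Agent.NH16.IG
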