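import Mathlib

/-!
# Sums of an element of a dense set and a prime: reduction to residue classes (project IG)

For `S ⊆ [1, x]` and almost all `n ∈ (x, 2x]` the number of the `u ∈ S` with `n - u` prime is
`(1 + o(1)) #{u ∈ S : n - u has no prime factor ≤ y} / (V(y) log x)`, `y = K log log x`, unless the latter set is
very sparse. Application: sums of an iterated prime-indexed prime and a prime.
-/

set_option autoImplicit false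

namespace Pool.Agent.NH16.IG

open Finset

/-- the product of `1 - 1/q` over the primes `q ≤ y` -/
noncomputable def V (y : ℕ) : ℝ := ∏ q ∈ (Icc 1 y).filter Nat.Prime, (1 - 1 / (q : ℝ))

/-- the `u ∈ S` such that `n - u` is prime -/
def Rep (S : Finset ℕ) (n : ℕ) : Finset ℕ := S.filter (fun u => (n - u).Prime)

/-- the `u ∈ S` such that `n - u` has no prime factor `≤ y` -/
def Rough (S : Finset ℕ) (y n : ℕ) : Finset ℕ := S.filter (fun u => Nat.Coprime (n - u) (primorial y))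

/-- the expected number of the `u ∈ S` such that `n - u` is prime -/
noncomputable def E (S : Finset ℕ) (x y n : ℕ) : ℝ := ((Rough S y n).card : ℝ) / (V y * Real.log x)

/-- the local factors up to `y` -/
noncomputable def Lc (y n : ℕ) : ℝ :=
  ∏ p ∈ (Icc 1 y).filter Nat.Prime, (if p ∣ n then (1 : ℝ) else 1 - 1 / ((p : ℝ) - 1))

/-- the singular series of `n`, factors up to `y` -/
noncomputable def Sg (y n : ℕ) : ℝ := Lc y n / V y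

/-- IG-1 -/
def LowClass : Prop := ∀ (C : ℕ) (ε : ℝ), 0 < ε → ε ≤ 1 → ∃ K₀ : ℕ, ∀ K₁ : ℕ, ∃ x₀ : ℕ, ∀ x : ℕ, x₀ ≤ x →
  ∀ y : ℕ, K₀ * Real.log (Real.log x) ≤ y → y ≤ K₁ * Real.log (Real.log x) →
  ∀ m : ℕ, m < primorial y → ∀ T : Finset ℕ, T ⊆ Icc 1 x →
  (∀ u ∈ T, Nat.Coprime (m + primorial y * x - u) (primorial y)) → (x : ℝ) ≤ T.card * Real.log x ^ C →
    (((Ioc x (2 * x)).filter (fun n => n % primorial y = m ∧
      ((Rep T n).card : ℝ) < (1 - ε) * (T.card / (V y * Real.log x)))).card : ℝ) ≤ ε * (x / primorial y)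

/-- IG-2 -/
def UpAvg : Prop := ∀ (K₁ : ℕ) (ε : ℝ), 0 < ε → ∃ x₀ : ℕ, ∀ x : ℕ, x₀ ≤ x →
  ∀ y : ℕ, y ≤ K₁ * Real.log (Real.log x) →
  ∀ m : ℕ, m < primorial y → ∀ T : Finset ℕ, T ⊆ Icc 1 x →
  (∀ u ∈ T, Nat.Coprime (m + primorial y * x - u) (primorial y)) →
    ∑ n ∈ (Ioc x (2 * x)).filter (fun n => n % primorial y = m), ((Rep T n).card : ℝ) ≤
      (1 + ε) * (x / primorial y) * (T.card / (V y * Real.log x))

/-- IG-3 -/
def TwoClass : Prop := ∀ (C : ℕ) (ε : ℝ), 0 < ε → ε ≤ 1 → ∃ K₀ : ℕ, ∀ K₁ : ℕ, ∃ x₀ : ℕ, ∀ x : ℕ, x₀ ≤ x →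
  ∀ y : ℕ, K₀ * Real.log (Real.log x) ≤ y → y ≤ K₁ * Real.log (Real.log x) →
  ∀ m : ℕ, m < primorial y → ∀ T : Finset ℕ, T ⊆ Icc 1 x →
  (∀ u ∈ T, Nat.Coprime (m + primorial y * x - u) (primorial y)) → (x : ℝ) ≤ T.card * Real.log x ^ C →
    (((Ioc x (2 * x)).filter (fun n => n % primorial y = m ∧
      ε * (T.card / (V y * Real.log x)) < |((Rep T n).card : ℝ) - T.card / (V y * Real.log x)|)).card : ℝ) ≤
      ε * (x / primorial y)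

/-- IG-4 -/
def Descr : Prop := ∀ (C : ℕ) (ε : ℝ), 0 < ε → ε ≤ 1 → ∃ K₀ : ℕ, ∀ K₁ : ℕ, ∃ x₀ : ℕ, ∀ x : ℕ, x₀ ≤ x →
  ∀ y : ℕ, K₀ * Real.log (Real.log x) ≤ y → y ≤ K₁ * Real.log (Real.log x) →
  ∀ S : Finset ℕ, S ⊆ Icc 1 x →
    (((Ioc x (2 * x)).filter (fun n => (x : ℝ) ≤ (Rough S y n).card * Real.log x ^ C ∧
      ε * E S x y n < |((Rep S n).card : ℝ) - E S x y n|)).card : ℝ) ≤ ε * x

/-- IG-5 -/
def SgTail : Prop := ∀ ε : ℝ, 0 < ε → ∃ Y₀ : ℕ, ∀ x : ℕ, 1 ≤ x → ∀ y : ℕ, Y₀ ≤ y → y ≤ x →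
  (((Ioc x (2 * x)).filter (fun n => ε * Sg n n < |Sg n n - Sg y n|)).card : ℝ) ≤ ε * x

/-- `#Rep ~ 𝔖(n) #S / log x` for almost all even `n` -/
def HL (S : ℕ → Finset ℕ) : Prop := ∀ ε : ℝ, 0 < ε → ∃ x₀ : ℕ, ∀ x : ℕ, x₀ ≤ x →
  (((Ioc x (2 * x)).filter (fun n => Even n ∧
    ε * (Sg n n * (S x).card / Real.log x) <
      |((Rep (S x) n).card : ℝ) - Sg n n * (S x).card / Real.log x|)).card : ℝ) ≤ ε * x

/-- `#Rough ~` the expected number for almost all even `n` -/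
def ED (S : ℕ → Finset ℕ) : Prop := ∀ ε : ℝ, 0 < ε → ∃ K₀ : ℕ, ∀ K₁ : ℕ, ∃ x₀ : ℕ, ∀ x : ℕ, x₀ ≤ x →
  ∀ y : ℕ, K₀ * Real.log (Real.log x) ≤ y → y ≤ K₁ * Real.log (Real.log x) →
  (((Ioc x (2 * x)).filter (fun n => Even n ∧
    ε * (Lc y n * (S x).card) < |((Rough (S x) y n).card : ℝ) - Lc y n * (S x).card|)).card : ℝ) ≤ ε * x

/-- many representations of almost all even `n` -/
def ManyRep (S : ℕ → Finset ℕ) : Prop := ∃ C : ℕ, ∀ ε : ℝ, 0 < ε → ∃ x₀ : ℕ, ∀ x : ℕ, x₀ ≤ x →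
  (((Ioc x (2 * x)).filter (fun n => Even n ∧
    ((Rep (S x) n).card : ℝ) * Real.log x ^ C < x)).card : ℝ) ≤ ε * x

/-- many `u` with `n - u` free of prime factors `≤ y`, for almost all even `n` -/
def ManyRough (S : ℕ → Finset ℕ) : Prop := ∃ C : ℕ, ∀ ε : ℝ, 0 < ε → ∃ K₀ : ℕ, ∀ K₁ : ℕ, ∃ x₀ : ℕ, ∀ x : ℕ,
  x₀ ≤ x → ∀ y : ℕ, K₀ * Real.log (Real.log x) ≤ y → y ≤ K₁ * Real.log (Real.log x) →
  (((Ioc x (2 * x)).filter (fun n => Even n ∧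
    ((Rough (S x) y n).card : ℝ) * Real.log x ^ C < x)).card : ℝ) ≤ ε * x

/-- IG-6 -/
def Iff1 : Prop := ∀ S : ℕ → Finset ℕ, (∀ x, S x ⊆ Icc 1 x) →
  (∃ B x₀ : ℕ, ∀ x : ℕ, x₀ ≤ x → (x : ℝ) ≤ (S x).card * Real.log x ^ B) → (HL S ↔ ED S)

/-- IG-7 -/
def Iff2 : Prop := ∀ S : ℕ → Finset ℕ, (∀ x, S x ⊆ Icc 1 x) → (ManyRep S ↔ ManyRough S)

end Pool.Agent.NH16.IG
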