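import Pool.Agent.NH16.IG.Stm

/-!
# Two-sided estimate in one residue class (project IG)
-/

set_option autoImplicit false

namespace Pool.Agent.NH16.IG

open Finset

namespace Tw

lemma V_pos (y : ℕ) : 0 < V y := by
  refine prod_pos fun q hq => ?_
  have h1 : (2 : ℝ) ≤ q := by exact_mod_cast (mem_filter.1 hq).2.two_le
  have h2 : 1 / (q : ℝ) ≤ 1 / 2 := one_div_le_one_div_of_le (by norm_num) h1
  linarith

lemma small (K₁ : ℕ) {η : ℝ} (hη : 0 < η) : ∃ x₃ : ℕ, ∀ x : ℕ, x₃ ≤ x → ∀ y : ℕ,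
    (y : ℝ) ≤ K₁ * Real.log (Real.log x) → (primorial y : ℝ) ≤ η * x := by
  have h1 := (isLittleO_log_rpow_rpow_atTop (s := 1) (K₁ * Real.log 4) one_pos).bound hη
  have h2 := tendsto_natCast_atTop_atTop (R := ℝ) |>.eventually h1
  have h3 : ∀ᶠ x : ℕ in Filter.atTop, (1 : ℝ) ≤ Real.log x :=
    (Real.tendsto_log_atTop.comp tendsto_natCast_atTop_atTop).eventually_ge_atTop 1
  obtain ⟨x₃, hx₃⟩ := Filter.eventually_atTop.1 (h2.and h3)
  refine ⟨x₃, fun x hx y hy => ?_⟩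
  obtain ⟨h4, h5⟩ := hx₃ x hx
  have h6 : (primorial y : ℝ) ≤ 4 ^ y := by exact_mod_cast primorial_le_four_pow y
  have h7 : (4 : ℝ) ^ y = Real.exp (y * Real.log 4) := by
    rw [Real.exp_nat_mul, Real.exp_log (by norm_num)]
  have h8 : (0 : ℝ) ≤ Real.log 4 := Real.log_nonneg (by norm_num)
  have h9 : Real.exp (y * Real.log 4) ≤ Real.log x ^ (K₁ * Real.log 4) := by
    rw [Real.rpow_def_of_pos (by linarith)]
    refine Real.exp_le_exp.2 ?_
    calc y * Real.log 4 ≤ K₁ * Real.log (Real.log x) * Real.log 4 :=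
          mul_le_mul_of_nonneg_right hy h8
      _ = Real.log (Real.log x) * (K₁ * Real.log 4) := by ring
  rw [Real.rpow_one, Real.norm_of_nonneg (Real.rpow_nonneg (by linarith) _),
    Real.norm_of_nonneg (Nat.cast_nonneg x)] at h4
  rw [h7] at h6
  exact h6.trans (h9.trans h4)

lemma count_ge (x : ℕ) {M m : ℕ} (hm : m < M) :
    (x : ℝ) / M - 1 ≤ (((Ioc x (2 * x)).filter (fun n => n % M = m)).card : ℝ) := by
  have hM : 0 < M := by omega
  have h1 := Nat.Ioc_filter_modEq_card x (2 * x) hM m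
  have h2 : (Ioc x (2 * x)).filter (fun n => n % M = m) =
      (Ioc x (2 * x)).filter (fun n => n ≡ m [MOD M]) := by
    refine filter_congr fun n _ => ?_
    unfold Nat.ModEq
    rw [Nat.mod_eq_of_lt hm]
  rw [h2]
  have h3 : (⌊((2 * x : ℕ) - m : ℚ) / (M : ℚ)⌋ - ⌊((x : ℚ) - m) / (M : ℚ)⌋ : ℤ) ≤
      (((Ioc x (2 * x)).filter (fun n => n ≡ m [MOD M])).card : ℤ) := by
    rw [h1]
    exact le_max_left _ _
  have h4 : ((2 * x : ℕ) - m : ℚ) / (M : ℚ) - 1 < ⌊((2 * x : ℕ) - m : ℚ) / (M : ℚ)⌋ :=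
    Int.sub_one_lt_floor _
  have h5 : (⌊((x : ℚ) - m) / (M : ℚ)⌋ : ℚ) ≤ ((x : ℚ) - m) / (M : ℚ) := Int.floor_le _
  have h6 : ((⌊((2 * x : ℕ) - m : ℚ) / (M : ℚ)⌋ : ℤ) : ℚ) - ((⌊((x : ℚ) - m) / (M : ℚ)⌋ : ℤ) : ℚ) ≤
      (((Ioc x (2 * x)).filter (fun n => n ≡ m [MOD M])).card : ℚ) := by
    exact_mod_cast h3
  have h7 : (x : ℚ) / M - 1 ≤ (((Ioc x (2 * x)).filter (fun n => n ≡ m [MOD M])).card : ℚ) := by
    have e1 : ((2 * x : ℕ) - m : ℚ) / (M : ℚ) - ((x : ℚ) - m) / (M : ℚ) = (x : ℚ) / M := by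
      push_cast
      ring
    linarith
  have h8 := (Rat.cast_le (K := ℝ)).2 h7
  push_cast at h8
  exact h8

/-- Markov's inequality -/
lemma markov {N : Finset ℕ} {r : ℕ → ℝ} {F X ε η : ℝ} (hr : ∀ n, 0 ≤ r n) (hF : 0 < F)
    (hε : 0 < ε) (hη : 0 < η) (hη1 : η ≤ 1) (hX : 1 ≤ η * X) (hN : X - 1 ≤ N.card)
    (hlow : ((N.filter fun n => r n < (1 - η) * F).card : ℝ) ≤ η * X)
    (hsum : ∑ n ∈ N, r n ≤ (1 + η) * X * F) :
    ((N.filter fun n => (1 + ε) * F < r n).card : ℝ) * ε ≤ 4 * η * X := by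
  classical
  have h1 : ∀ n ∈ N, (if (1 + ε) * F < r n then ε * F else 0) - η * F -
      (if r n < (1 - η) * F then F else 0) ≤ r n - F := by
    intro n _
    have h0 := hr n
    have hηF : 0 < η * F := by positivity
    have hεF : 0 < ε * F := by positivity
    split_ifs with h2 h3 h3
    · nlinarith
    · nlinarith
    · nlinarith
    · push Not at h3
      nlinarith
  have h2 := sum_le_sum h1
  rw [sum_sub_distrib, sum_sub_distrib, sum_sub_distrib, ← sum_filter, ← sum_filter, sum_const,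
    sum_const, sum_const, sum_const, nsmul_eq_mul, nsmul_eq_mul, nsmul_eq_mul, nsmul_eq_mul] at h2
  set U : ℝ := ((N.filter fun n => (1 + ε) * F < r n).card : ℝ)
  set L : ℝ := ((N.filter fun n => r n < (1 - η) * F).card : ℝ)
  set c : ℝ := (N.card : ℝ)
  have h3 : U * (ε * F) ≤ (1 + η) * X * F - c * F + c * (η * F) + η * X * F := by
    have : L * F ≤ η * X * F := mul_le_mul_of_nonneg_right hlow hF.le
    linarith
  have h4 : U * ε * F ≤ ((1 + η) * X - c + c * η + η * X) * F := by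
    calc U * ε * F = U * (ε * F) := by ring
      _ ≤ _ := h3
      _ = _ := by ring
  have h5 := le_of_mul_le_mul_right h4 hF
  have h6 : (1 - η) * (X - 1) ≤ (1 - η) * c := mul_le_mul_of_nonneg_left hN (by linarith)
  nlinarith

end Tw

open Tw in
theorem twoClass (h1 : LowClass) (h2 : UpAvg) : TwoClass := by
  intro C ε hε hε1
  set η : ℝ := ε ^ 2 / 16 with hη
  have hη0 : 0 < η := by positivity
  have hηε : η ≤ ε / 16 := by
    rw [hη]
    have : ε ^ 2 ≤ ε := by nlinarith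
    linarith
  have hη1 : η ≤ 1 := by linarith
  obtain ⟨K₀, hK₀⟩ := h1 C η hη0 hη1
  refine ⟨K₀, fun K₁ => ?_⟩
  obtain ⟨x₁, hx₁⟩ := hK₀ K₁
  obtain ⟨x₂, hx₂⟩ := h2 K₁ η hη0
  obtain ⟨x₃, hx₃⟩ := small K₁ hη0
  refine ⟨max (max x₁ x₂) (max x₃ 2), fun x hx y hy0 hy1 m hm T hT hcop hsize => ?_⟩
  have hxx : x₁ ≤ x ∧ x₂ ≤ x ∧ x₃ ≤ x ∧ 2 ≤ x := by
    refine ⟨?_, ?_, ?_, ?_⟩ <;> omega
  have e1 := hx₁ x hxx.1 y hy0 hy1 m hm T hT hcop hsize
  have e2 := hx₂ x hxx.2.1 y hy1 m hm T hT hcop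
  have e3 := hx₃ x hxx.2.2.1 y hy1
  have hM : (0 : ℝ) < primorial y := by exact_mod_cast primorial_pos y
  have hx1 : (1 : ℝ) < x := by exact_mod_cast hxx.2.2.2
  have hlog : 0 < Real.log x := Real.log_pos hx1
  have hT0 : (0 : ℝ) < T.card := by
    by_contra hcon
    have h0 : (T.card : ℝ) = 0 := le_antisymm (not_lt.1 hcon) (Nat.cast_nonneg _)
    rw [h0, zero_mul] at hsize
    linarith
  have hF : 0 < (T.card : ℝ) / (V y * Real.log x) := by
    have := V_pos y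
    positivity
  set F : ℝ := (T.card : ℝ) / (V y * Real.log x) with hFdef
  set X : ℝ := (x : ℝ) / primorial y with hXdef
  set N : Finset ℕ := (Ioc x (2 * x)).filter (fun n => n % primorial y = m) with hNdef
  have hX : 1 ≤ η * X := by
    rw [hXdef, ← mul_div_assoc, le_div_iff₀ hM, one_mul]
    exact e3
  have hN : X - 1 ≤ N.card := count_ge x hm
  have hlow : ((N.filter fun n => ((Rep T n).card : ℝ) < (1 - η) * F).card : ℝ) ≤ η * X := by
    rw [hNdef, filter_filter]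
    exact e1
  have hup := markov (N := N) (r := fun n => ((Rep T n).card : ℝ)) (ε := ε)
    (fun n => Nat.cast_nonneg _) hF hε hη0 hη1 hX hN hlow e2
  have hX0 : 0 < X := by
    by_contra hcon
    push Not at hcon
    nlinarith
  have hup2 : ((N.filter fun n => (1 + ε) * F < ((Rep T n).card : ℝ)).card : ℝ) ≤ ε / 4 * X := by
    have h3 : 4 * η * X = ε / 4 * X * ε := by
      rw [hη]; ring
    rw [h3] at hup
    exact le_of_mul_le_mul_right hup hε
  have hsub : (Ioc x (2 * x)).filter (fun n => n % primorial y = m ∧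
      ε * F < |((Rep T n).card : ℝ) - F|) ⊆
      (N.filter fun n => ((Rep T n).card : ℝ) < (1 - η) * F) ∪
        (N.filter fun n => (1 + ε) * F < ((Rep T n).card : ℝ)) := by
    intro n hn
    rw [mem_filter] at hn
    have hnN : n ∈ N := by
      rw [hNdef, mem_filter]; exact ⟨hn.1, hn.2.1⟩
    refine mem_union.2 ?_
    rcases lt_abs.1 hn.2.2 with h3 | h3
    · exact Or.inr (mem_filter.2 ⟨hnN, by linarith⟩)
    · refine Or.inl (mem_filter.2 ⟨hnN, ?_⟩)
      have : η * F ≤ ε * F := mul_le_mul_of_nonneg_right (by linarith) hF.le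
      linarith
  have hcard : (((Ioc x (2 * x)).filter (fun n => n % primorial y = m ∧
      ε * F < |((Rep T n).card : ℝ) - F|)).card : ℝ) ≤
      ((N.filter fun n => ((Rep T n).card : ℝ) < (1 - η) * F).card : ℝ) +
        ((N.filter fun n => (1 + ε) * F < ((Rep T n).card : ℝ)).card : ℝ) := by
    exact_mod_cast (card_le_card hsub).trans (card_union_le _ _)
  have h4 : η * X ≤ ε / 16 * X := mul_le_mul_of_nonneg_right hηε hX0.le
  have h5 : 0 < ε * X := by positivity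
  calc _ ≤ _ := hcard
    _ ≤ η * X + ε / 4 * X := add_le_add hlow hup2
    _ ≤ ε * X := by linarith

end Pool.Agent.NH16.IG
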