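import Pool.Agent.NH16.IG.Stm
import Pool.Agent.W218.MU.Class

/-!
# IG-2: upper bound on average in one class
-/

set_option autoImplicit false

namespace Pool.Agent.NH16.IG

open Finset Filter Topology

namespace Upp

lemma totient_primorial (y : ℕ) : (Nat.totient (primorial y) : ℝ) = primorial y * V y := by
  have h : (Nat.totient (primorial y) : ℝ) =
      primorial y * ∏ p ∈ (primorial y).primeFactors, (1 - (p : ℝ)⁻¹) := by
    have := congrArg (fun x : ℚ => (x : ℝ)) (Nat.totient_eq_mul_prod_factors (primorial y))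
    push_cast at this
    exact this
  rw [h]
  unfold V
  congr 1
  have e : (primorial y).primeFactors = (Icc 1 y).filter Nat.Prime := by
    ext p
    rw [primeFactors_primorial, Nat.mem_primesLE, mem_filter, mem_Icc]
    constructor
    · rintro ⟨h1, h2⟩
      exact ⟨⟨h2.one_le, h1⟩, h2⟩
    · rintro ⟨⟨_, h1⟩, h2⟩
      exact ⟨h1, h2⟩
  rw [e]
  refine prod_congr rfl fun p _ => ?_
  rw [one_div]

lemma primorial_le {K₁ y : ℕ} {L : ℝ} (hL : 1 ≤ L) (hy : (y : ℝ) ≤ K₁ * Real.log L) :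
    (primorial y : ℝ) ≤ L ^ (2 * K₁) := by
  have h1 : (primorial y : ℝ) ≤ (4 : ℝ) ^ y := by exact_mod_cast primorial_le_four_pow y
  have h2 : Real.log 4 ≤ 2 := by
    have e : Real.log 4 = 2 * Real.log 2 := by
      rw [show (4 : ℝ) = 2 ^ 2 by norm_num, Real.log_pow]
      push_cast
      ring
    rw [e]
    linarith [Real.log_two_lt_d9]
  have hL0 : 0 < L := by linarith
  have h3 : (4 : ℝ) ^ y = Real.exp (Real.log 4 * y) := by
    rw [← Real.rpow_natCast, Real.rpow_def_of_pos (by norm_num)]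
  have h4 : L ^ (2 * K₁) = Real.exp (Real.log L * (2 * K₁ : ℕ)) := by
    rw [← Real.rpow_natCast, Real.rpow_def_of_pos hL0]
  rw [h3] at h1
  rw [h4]
  refine h1.trans (Real.exp_le_exp.2 ?_)
  push_cast
  calc Real.log 4 * y ≤ 2 * y := mul_le_mul_of_nonneg_right h2 (Nat.cast_nonneg y)
    _ ≤ 2 * (K₁ * Real.log L) := by linarith
    _ = _ := by ring

lemma count {x u M m : ℕ} (hM : 1 ≤ M) (hu : u ≤ x) :
    ((((Ioc x (2 * x)).filter (fun n => n % M = m)).filter (fun n => (n - u).Prime)).card : ℝ) +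
      H343E.piAP (x - u) M ((m + M * x - u) % M) ≤
      H343E.piAP (2 * x - u) M ((m + M * x - u) % M) := by
  classical
  unfold H343E.piAP
  rw [← Nat.cast_add]
  apply Nat.cast_le.2
  have hx : x ≤ M * x := Nat.le_mul_of_pos_left x hM
  have hinj : Set.InjOn (fun n => n - u)
      (((Ioc x (2 * x)).filter (fun n => n % M = m)).filter (fun n => (n - u).Prime) : Set ℕ) := by
    intro n hn n' hn' h
    rw [Finset.mem_coe, mem_filter, mem_filter, mem_Ioc] at hn hn'
    have h' : n - u = n' - u := h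
    omega
  rw [← card_image_of_injOn hinj, ← card_union_of_disjoint]
  · apply card_le_card
    intro p hp
    rw [mem_union] at hp
    rcases hp with hp | hp
    · rw [mem_image] at hp
      obtain ⟨n, hn, rfl⟩ := hp
      rw [mem_filter, mem_filter, mem_Ioc] at hn
      obtain ⟨⟨⟨h1, h2⟩, h3⟩, h4⟩ := hn
      rw [mem_filter, mem_Icc]
      refine ⟨⟨h4.one_le, by omega⟩, h4, ?_⟩
      refine Nat.ModEq.trans ?_ (Nat.mod_modEq _ _).symm
      apply Nat.ModEq.add_right_cancel' u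
      rw [Nat.sub_add_cancel (by omega), Nat.sub_add_cancel (by omega)]
      have h5 : n ≡ m [MOD M] := by
        rw [← h3]
        exact (Nat.mod_modEq _ _).symm
      refine h5.trans ?_
      have h6 : m + 0 ≡ m + M * x [MOD M] :=
        Nat.ModEq.add_left m (Nat.modEq_zero_iff_dvd.2 (Dvd.intro x rfl)).symm
      rwa [add_zero] at h6
    · rw [mem_filter, mem_Icc] at hp ⊢
      exact ⟨⟨hp.1.1, by omega⟩, hp.2⟩
  · rw [Finset.disjoint_left]
    intro p hp hp'
    rw [mem_image] at hp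
    obtain ⟨n, hn, rfl⟩ := hp
    rw [mem_filter, mem_filter, mem_Ioc] at hn
    rw [mem_filter, mem_Icc] at hp'
    have := hp'.1.2
    omega

lemma pi1_le (x : ℕ) : H343E.pi1 x ≤ x := by
  unfold H343E.pi1
  have : ((Icc 1 x).filter (fun p => p.Prime)).card ≤ x := by
    refine (card_filter_le _ _).trans ?_
    rw [Nat.card_Icc]
    omega
  exact_mod_cast this

lemma pi1_nonneg (x : ℕ) : 0 ≤ H343E.pi1 x := Nat.cast_nonneg _

lemma piAP_nonneg (x q a : ℕ) : 0 ≤ H343E.piAP x q a := Nat.cast_nonneg _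

/-- the arithmetic of the bound -/
lemma arith {K : ℕ} {x L φ η A : ℝ} (hx : 0 ≤ x) (hL : 1 ≤ L) (hφ : 0 < φ) (hφ1 : φ ≤ L ^ (2 * K))
    (hη : 0 ≤ η) (hA : A / L ≤ η) : A * (x / L ^ (2 * K + 2)) ≤ η * (x / (φ * L)) := by
  have hL0 : 0 < L := by linarith
  have h1 : A * (x / L ^ (2 * K + 2)) = A / L * (x / (L ^ (2 * K) * L)) := by
    rw [pow_add]
    field_simp
  have h2 : x / (L ^ (2 * K) * L) ≤ x / (φ * L) := by
    apply div_le_div_of_nonneg_left hx (by positivity)
    exact mul_le_mul_of_nonneg_right hφ1 hL0.le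
  rw [h1]
  calc A / L * (x / (L ^ (2 * K) * L)) ≤ η * (x / (L ^ (2 * K) * L)) :=
        mul_le_mul_of_nonneg_right hA (by positivity)
    _ ≤ η * (x / (φ * L)) := mul_le_mul_of_nonneg_left h2 hη

/-- the bound for one `u` -/
lemma one (K₁ : ℕ) {η : ℝ} (hη : 0 < η) (hη1 : η ≤ 1) : ∃ x₀ : ℕ, ∀ x : ℕ, x₀ ≤ x → 1 ≤ Real.log x ∧
    ∀ M : ℕ, 1 ≤ M → (M : ℝ) ≤ Real.log x ^ (2 * K₁) → ∀ a : ℕ, a < M → a.Coprime M →
    ∀ u : ℕ, u ≤ x → H343E.piAP (2 * x - u) M a - H343E.piAP (x - u) M a ≤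
      (1 + 5 * η) * (x / (Nat.totient M * Real.log x)) := by
  obtain ⟨xa, hsw⟩ := Pool.Agent.W218.MU.sw (2 * K₁ + 1) (2 * K₁ + 2)
  obtain ⟨xb, hpi⟩ := eventually_atTop.1
    ((Pool.Agent.H387R2.Uni.pi1_lower hη).and (Pool.Agent.W218.MU.pi1_upper hη))
  have t1 : Tendsto (fun x : ℕ => Real.log (x : ℝ)) atTop atTop :=
    Real.tendsto_log_atTop.comp tendsto_natCast_atTop_atTop
  have t2 : Tendsto (fun x : ℕ => Real.sqrt (x : ℝ)) atTop atTop :=
    Real.tendsto_sqrt_atTop.comp tendsto_natCast_atTop_atTop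
  have e1 := t1.eventually_ge_atTop (max 1 (max (2 * 4 ^ K₁) ((2 + 2 ^ (2 * K₁ + 2)) / η)))
  have e2 := t2.eventually_ge_atTop (max (max (xa : ℝ) xb) 3)
  have e3 : ∀ᶠ x : ℕ in atTop, Real.log (x : ℝ) ^ (2 * K₁ + 2) ≤ Real.sqrt x := by
    have h1 := (isLittleO_log_rpow_rpow_atTop ((2 * K₁ + 2 : ℕ) : ℝ)
      (show (0 : ℝ) < 1 / 2 by norm_num)).def one_pos
    filter_upwards [tendsto_natCast_atTop_atTop.eventually h1] with x hx
    rw [one_mul, Real.rpow_natCast, ← Real.sqrt_eq_rpow, Real.norm_of_nonneg (Real.sqrt_nonneg _)] at hx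
    exact (le_abs_self _).trans hx
  obtain ⟨x₀, h⟩ := eventually_atTop.1 (e1.and (e2.and e3))
  refine ⟨x₀, fun x hx => ?_⟩
  obtain ⟨h1, h2, h3⟩ := h x hx
  obtain ⟨L, hLd⟩ : ∃ L, L = Real.log (x : ℝ) := ⟨_, rfl⟩
  rw [← hLd] at h1 h3 ⊢
  have hL1 : 1 ≤ L := (le_max_left _ _).trans h1
  have hL2 : 2 * 4 ^ K₁ ≤ L := (le_max_left _ _).trans ((le_max_right _ _).trans h1)
  have hL3 : (2 + 2 ^ (2 * K₁ + 2)) / η ≤ L := (le_max_right _ _).trans ((le_max_right _ _).trans h1)
  have hL0 : 0 < L := by linarith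
  have hs1 : ((max xa xb : ℕ) : ℝ) ≤ Real.sqrt x := by
    push_cast
    exact (le_max_left _ _).trans h2
  have hs3 : 3 ≤ Real.sqrt x := (le_max_right _ _).trans h2
  refine ⟨hL1, fun M hM hMx a ha hac u hu => ?_⟩
  obtain ⟨s, hs⟩ : ∃ s, s = Real.sqrt (x : ℝ) := ⟨_, rfl⟩
  rw [← hs] at h3 hs1 hs3
  have hss : s * s = x := by
    rw [hs]
    exact Real.mul_self_sqrt (Nat.cast_nonneg x)
  have hs0 : 0 < s := by linarith
  have hx0 : (0 : ℝ) < x := by
    rw [← hss]
    positivity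
  have hsx : s ≤ x := by
    rw [← hss]
    nlinarith
  have hlogs : Real.log s = L / 2 := by
    rw [hs, Real.log_sqrt (Nat.cast_nonneg x), hLd]
  have hEpos : 0 < L ^ (2 * K₁ + 2) := by positivity
  -- the root is small
  have hsE : s ≤ x / L ^ (2 * K₁ + 2) := by
    rw [le_div_iff₀ hEpos, ← hss]
    exact mul_le_mul_of_nonneg_left h3 hs0.le
  have hAL : (2 + 2 ^ (2 * K₁ + 2)) / L ≤ η := by
    rw [div_le_iff₀ hL0]
    rw [div_le_iff₀ hη] at hL3
    linarith
  have h1L : 1 / L ≤ η := by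
    refine le_trans ?_ hAL
    apply div_le_div_of_nonneg_right _ hL0.le
    have : (0 : ℝ) < 2 ^ (2 * K₁ + 2) := by positivity
    linarith
  have hsη : s ≤ η * (x / L) := by
    refine hsE.trans ?_
    have h4 : L * L ≤ L ^ (2 * K₁ + 2) := by
      have : L * L = L ^ 2 := by ring
      rw [this]
      exact pow_le_pow_right₀ hL1 (by omega)
    calc (x : ℝ) / L ^ (2 * K₁ + 2) ≤ x / (L * L) :=
          div_le_div_of_nonneg_left hx0.le (by positivity) h4
      _ = 1 / L * (x / L) := by field_simp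
      _ ≤ η * (x / L) := mul_le_mul_of_nonneg_right h1L (by positivity)
  -- the ends
  obtain ⟨X1, hX1⟩ : ∃ X1, X1 = 2 * x - u := ⟨_, rfl⟩
  obtain ⟨X0, hX0⟩ : ∃ X0, X0 = x - u := ⟨_, rfl⟩
  rw [← hX1, ← hX0]
  have hX1r : (X1 : ℝ) = 2 * x - u := by
    rw [hX1, Nat.cast_sub (by omega)]
    push_cast
    ring
  have hX0r : (X0 : ℝ) = x - u := by
    rw [hX0, Nat.cast_sub hu]
  have hu0 : (0 : ℝ) ≤ u := Nat.cast_nonneg u
  have hur : (u : ℝ) ≤ x := by exact_mod_cast hu
  have hX1x : (x : ℝ) ≤ X1 := by rw [hX1r]; linarith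
  have hX12 : (X1 : ℝ) ≤ 2 * x := by rw [hX1r]; linarith
  have hX00 : (0 : ℝ) ≤ X0 := Nat.cast_nonneg X0
  have hX0x : (X0 : ℝ) ≤ x := by rw [hX0r]; linarith
  have hlX1 : L ≤ Real.log X1 := by
    rw [hLd]
    exact Real.log_le_log hx0 hX1x
  have hbig : ∀ Z : ℕ, s ≤ Z → max xa xb ≤ Z := by
    intro Z hZ
    exact_mod_cast hs1.trans hZ
  have hZ1 := hbig X1 (hsx.trans hX1x)
  obtain ⟨φ, hφ⟩ : ∃ φ : ℝ, φ = (Nat.totient M : ℝ) := ⟨_, rfl⟩
  have hφ1 : 1 ≤ φ := by
    rw [hφ]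
    exact_mod_cast Nat.totient_pos.2 hM
  have hφ0 : 0 < φ := by linarith
  have hφM : φ ≤ L ^ (2 * K₁) := by
    refine le_trans ?_ (hMx.trans (le_of_eq ?_))
    · rw [hφ]
      exact_mod_cast Nat.totient_le M
    · rfl
  -- upper end
  have hup : H343E.piAP X1 M a ≤ H343E.pi1 X1 / φ + 2 * (x / L ^ (2 * K₁ + 2)) := by
    have h4 := hsw X1 ((le_max_left _ _).trans hZ1) M hM (by
      calc (M : ℝ) ≤ L ^ (2 * K₁) := hMx
        _ ≤ L ^ (2 * K₁ + 1) := pow_le_pow_right₀ hL1 (by omega)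
        _ ≤ Real.log X1 ^ (2 * K₁ + 1) := pow_le_pow_left₀ hL0.le hlX1 _) a ha hac
    rw [← hφ] at h4
    have h5 := (abs_le.1 h4).2
    have h6 : (X1 : ℝ) / Real.log X1 ^ (2 * K₁ + 2) ≤ 2 * (x / L ^ (2 * K₁ + 2)) := by
      rw [mul_div_assoc']
      apply div_le_div₀ (by positivity) hX12 hEpos
      exact pow_le_pow_left₀ hL0.le hlX1 _
    linarith
  have hup2 : H343E.pi1 X1 ≤ (1 + η) * (X1 / L) := by
    have h4 := (hpi X1 ((le_max_right _ _).trans hZ1)).2
    refine h4.trans (mul_le_mul_of_nonneg_left ?_ (by linarith))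
    exact div_le_div_of_nonneg_left (by positivity) hL0 hlX1
  -- lower end
  have hlo : H343E.pi1 X0 / φ - 2 ^ (2 * K₁ + 2) * (x / L ^ (2 * K₁ + 2)) ≤ H343E.piAP X0 M a ∧
      (1 - η) * (X0 / L) - η * (x / L) ≤ H343E.pi1 X0 := by
    by_cases hc : s ≤ X0
    · have hZ0 := hbig X0 hc
      have hl0 : L / 2 ≤ Real.log X0 := by
        rw [← hlogs]
        exact Real.log_le_log hs0 hc
      have hl1 : Real.log X0 ≤ L := by
        rw [hLd]
        exact Real.log_le_log (hs0.trans_le hc) hX0x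
      have hl00 : 0 < Real.log X0 := lt_of_lt_of_le (by positivity) hl0
      constructor
      · have h4 := hsw X0 ((le_max_left _ _).trans hZ0) M hM (by
          calc (M : ℝ) ≤ L ^ (2 * K₁) := hMx
            _ ≤ (2 * Real.log X0) ^ (2 * K₁) := pow_le_pow_left₀ hL0.le (by linarith) _
            _ = 4 ^ K₁ * Real.log X0 ^ (2 * K₁) := by
                rw [mul_pow, pow_mul (2 : ℝ) 2 K₁]
                norm_num
            _ ≤ Real.log X0 * Real.log X0 ^ (2 * K₁) := by
                apply mul_le_mul_of_nonneg_right _ (by positivity)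
                linarith
            _ = Real.log X0 ^ (2 * K₁ + 1) := by ring) a ha hac
        rw [← hφ] at h4
        have h5 := (abs_le.1 h4).1
        have h6 : (X0 : ℝ) / Real.log X0 ^ (2 * K₁ + 2) ≤ 2 ^ (2 * K₁ + 2) * (x / L ^ (2 * K₁ + 2)) := by
          calc (X0 : ℝ) / Real.log X0 ^ (2 * K₁ + 2) ≤ x / (L / 2) ^ (2 * K₁ + 2) := by
                apply div_le_div₀ hx0.le hX0x (by positivity)
                exact pow_le_pow_left₀ (by positivity) hl0 _
            _ = 2 ^ (2 * K₁ + 2) * (x / L ^ (2 * K₁ + 2)) := by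
                rw [div_pow, div_div_eq_mul_div]
                ring
        linarith
      · have h4 := (hpi X0 ((le_max_right _ _).trans hZ0)).1
        have h5 : (1 - η) * ((X0 : ℝ) / L) ≤ (1 - η) * (X0 / Real.log X0) :=
          mul_le_mul_of_nonneg_left (div_le_div_of_nonneg_left hX00 hl00 hl1) (by linarith)
        have h6 : 0 ≤ η * ((x : ℝ) / L) := by positivity
        linarith
    · push Not at hc
      have h4 : (X0 : ℝ) ≤ x / L ^ (2 * K₁ + 2) := hc.le.trans hsE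
      have h5 := pi1_le X0
      constructor
      · have h6 : H343E.pi1 X0 / φ ≤ X0 := (div_le_self (pi1_nonneg X0) hφ1).trans h5
        have h7 : (x : ℝ) / L ^ (2 * K₁ + 2) ≤ 2 ^ (2 * K₁ + 2) * (x / L ^ (2 * K₁ + 2)) :=
          le_mul_of_one_le_left (by positivity) (one_le_pow₀ (by norm_num))
        have h8 := piAP_nonneg X0 M a
        linarith
      · have h6 := pi1_nonneg X0
        have h7 : (1 - η) * ((X0 : ℝ) / L) ≤ X0 := by
          have h8 : (X0 : ℝ) / L ≤ X0 := div_le_self hX00 hL1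
          have h9 : 0 ≤ (X0 : ℝ) / L := by positivity
          nlinarith
        linarith
  obtain ⟨hlo1, hlo2⟩ := hlo
  have hdiff : H343E.pi1 X1 - H343E.pi1 X0 ≤ (1 + 4 * η) * (x / L) := by
    have h4 : (X1 : ℝ) / L = (2 * x - u) / L := by rw [hX1r]
    have h5 : (X0 : ℝ) / L = (x - u) / L := by rw [hX0r]
    rw [h4] at hup2
    rw [h5] at hlo2
    have h6 : (1 + η) * ((2 * (x : ℝ) - u) / L) - ((1 - η) * ((x - u) / L) - η * (x / L)) =
        (1 + 4 * η) * (x / L) - 2 * η * (u / L) := by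
      field_simp
      ring
    have h7 : 0 ≤ 2 * η * ((u : ℝ) / L) := by positivity
    linarith
  have hdiff2 : (H343E.pi1 X1 - H343E.pi1 X0) / φ ≤ (1 + 4 * η) * (x / (φ * L)) := by
    have h4 : (1 + 4 * η) * ((x : ℝ) / (φ * L)) = (1 + 4 * η) * (x / L) / φ := by
      field_simp
    rw [h4]
    exact div_le_div_of_nonneg_right hdiff hφ0.le
  have har := arith (K := K₁) hx0.le hL1 hφ0 hφM hη.le hAL
  rw [sub_div] at hdiff2
  rw [← hφ]
  linarith

end Upp

open Upp in
theorem upAvg : UpAvg := by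
  classical
  intro K₁ ε hε
  have hη : 0 < min (ε / 5) 1 := lt_min (by positivity) one_pos
  obtain ⟨x₀, h⟩ := one K₁ hη (min_le_right _ _)
  refine ⟨x₀, fun x hx y hy m hm T hT hcop => ?_⟩
  obtain ⟨hL1, hone⟩ := h x hx
  have hL0 : 0 < Real.log x := by linarith
  have hM : 1 ≤ primorial y := primorial_pos y
  have hM0 : (0 : ℝ) < primorial y := by exact_mod_cast primorial_pos y
  have hMx := primorial_le (K₁ := K₁) hL1 hy
  have hx0 : (0 : ℝ) ≤ x := Nat.cast_nonneg x
  have hφ := totient_primorial y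
  have hφ0 : (0 : ℝ) < Nat.totient (primorial y) := by
    exact_mod_cast Nat.totient_pos.2 (primorial_pos y)
  have hV0 : 0 < V y := by
    rw [hφ] at hφ0
    exact pos_of_mul_pos_right hφ0 hM0.le
  -- exchange
  have hex : ∑ n ∈ (Ioc x (2 * x)).filter (fun n => n % primorial y = m), ((Rep T n).card : ℝ) =
      ∑ u ∈ T, ((((Ioc x (2 * x)).filter (fun n => n % primorial y = m)).filter
        (fun n => (n - u).Prime)).card : ℝ) := by
    rw [← Nat.cast_sum, ← Nat.cast_sum]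
    congr 1
    exact Finset.sum_card_bipartiteAbove_eq_sum_card_bipartiteBelow
      (s := (Ioc x (2 * x)).filter (fun n => n % primorial y = m)) (t := T)
      (fun n u => (n - u).Prime)
  rw [hex]
  have hu : ∀ u ∈ T, ((((Ioc x (2 * x)).filter (fun n => n % primorial y = m)).filter
        (fun n => (n - u).Prime)).card : ℝ) ≤
      (1 + ε) * (x / (Nat.totient (primorial y) * Real.log x)) := by
    intro u hu
    have hux : u ≤ x := (mem_Icc.1 (hT hu)).2
    have h1 := count (x := x) (u := u) (m := m) hM hux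
    have h2 := hone (primorial y) hM hMx ((m + primorial y * x - u) % primorial y)
      (Nat.mod_lt _ (primorial_pos y)) (by
        have h3 := (Nat.mod_modEq (m + primorial y * x - u) (primorial y)).gcd_eq
        have h4 := hcop u hu
        unfold Nat.Coprime at h4 ⊢
        rw [h3, h4]) u hux
    have h3 : (1 + 5 * min (ε / 5) 1) * ((x : ℝ) / (Nat.totient (primorial y) * Real.log x)) ≤
        (1 + ε) * (x / (Nat.totient (primorial y) * Real.log x)) := by
      apply mul_le_mul_of_nonneg_right _ (by positivity)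
      have := min_le_left (ε / 5) 1
      linarith
    linarith
  refine (Finset.sum_le_sum hu).trans (le_of_eq ?_)
  rw [Finset.sum_const, nsmul_eq_mul, hφ]
  field_simp

end Pool.Agent.NH16.IG
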